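import Mathlib

/-!
Project CL: a counting lemma for functions with prescribed restrictions.
-/

namespace Y616CQ

open Finset

open Classical in
theorem cnt2 {X Y Z : Type} [Fintype X] [Fintype Y] [Fintype Z] [DecidableEq X] [DecidableEq Y]
    [DecidableEq Z]
    (a : X → Z) (b : Y → Z) (ha : Function.Injective a) (hb : Function.Injective b)
    (hab : ∀ x y, a x ≠ b y) (s : X → Bool) (P : (Y → Bool) → Prop) :
    (univ.filter fun G : Z → Bool => (∀ x, G (a x) = s x) ∧ P fun y => G (b y)).card *
      2 ^ (Fintype.card X + Fintype.card Y) =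
    (univ.filter fun g : Y → Bool => P g).card * 2 ^ Fintype.card Z := by
  set c : X ⊕ Y → Z := Sum.elim a b with hc
  have hcinj : Function.Injective c := ha.sumElim hb hab
  set e : (X ⊕ Y) ⊕ {z // z ∉ Set.range c} ≃ Z :=
    (Equiv.sumCongr (Equiv.ofInjective c hcinj) (Equiv.refl _)).trans
      (Equiv.Set.sumCompl (Set.range c)) with he
  have hea : ∀ x, e (Sum.inl (Sum.inl x)) = a x := fun x => rfl
  have heb : ∀ y, e (Sum.inl (Sum.inr y)) = b y := fun y => rfl
  have hcardZ : Fintype.card Z = Fintype.card X + Fintype.card Y +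
      Fintype.card {z // z ∉ Set.range c} := by
    rw [← Fintype.card_congr e, Fintype.card_sum, Fintype.card_sum]
  have hcount : (univ.filter fun G : Z → Bool => (∀ x, G (a x) = s x) ∧ P fun y => G (b y)).card =
      ((univ.filter fun g : Y → Bool => P g) ×ˢ
        (univ : Finset ({z // z ∉ Set.range c} → Bool))).card := by
    symm
    apply Finset.card_bij'
      (i := fun p _ => fun z => Sum.elim (Sum.elim s p.1) p.2 (e.symm z))
      (j := fun G _ => (fun y => G (b y), fun w => G w.1))
    · intro p hp
      rw [mem_product, mem_filter] at hp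
      rw [mem_filter]
      refine ⟨mem_univ _, fun x => ?_, ?_⟩
      · show Sum.elim (Sum.elim s p.1) p.2 (e.symm (a x)) = s x
        rw [← hea x, Equiv.symm_apply_apply]; rfl
      · have : (fun y => Sum.elim (Sum.elim s p.1) p.2 (e.symm (b y))) = p.1 := by
          funext y
          rw [← heb y, Equiv.symm_apply_apply]; rfl
        rw [this]
        exact hp.1.2
    · intro G hG
      rw [mem_filter] at hG
      rw [mem_product, mem_filter]
      exact ⟨⟨mem_univ _, hG.2.2⟩, mem_univ _⟩
    · intro p hp
      ext1
      · funext y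
        show Sum.elim (Sum.elim s p.1) p.2 (e.symm (b y)) = p.1 y
        rw [← heb y, Equiv.symm_apply_apply]; rfl
      · funext w
        have : e (Sum.inr w) = w.1 := rfl
        show Sum.elim (Sum.elim s p.1) p.2 (e.symm w.1) = p.2 w
        rw [← this, Equiv.symm_apply_apply]; rfl
    · intro G hG
      rw [mem_filter] at hG
      funext z
      obtain ⟨z', rfl⟩ := e.surjective z
      show Sum.elim (Sum.elim s fun y => G (b y)) (fun w => G w.1) (e.symm (e z')) = G (e z')
      rw [Equiv.symm_apply_apply]
      rcases z' with (x | y) | w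
      · rw [hea]; exact (hG.2.1 x).symm
      · rw [heb]; rfl
      · have : e (Sum.inr w) = w.1 := rfl
        rw [this]; rfl
  rw [hcount, card_product, hcardZ, card_univ, Fintype.card_fun, Fintype.card_bool]
  ring

open Classical in
theorem cnt1 {Y Z : Type} [Fintype Y] [Fintype Z] [DecidableEq Y] [DecidableEq Z]
    (b : Y → Z) (hb : Function.Injective b) (P : (Y → Bool) → Prop) :
    (univ.filter fun G : Z → Bool => P fun y => G (b y)).card * 2 ^ Fintype.card Y =
    (univ.filter fun g : Y → Bool => P g).card * 2 ^ Fintype.card Z := by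
  have h := cnt2 (X := Empty) (Y := Y) (Z := Z) (fun x => x.elim) b
    (fun x => x.elim) hb (fun x => x.elim) (fun x => x.elim) P
  simpa using h

end Y616CQ
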