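import Mathlib
import Pool.Agent.H761R3.CQ.Defs

/-!
Finding cliques in the random graph with `n ^ θ` adaptive queries, all exponents `1 ≤ θ ≤ 2`:
definitions and statements of the parts (project CL of helper616).
The query algorithms `Alg`, the answers `ans`, the queried pairs `qd`, the pairs `prs K` of a set
`K` and the events `Finds`, `succ` are those of `Pool.Agent.H761R3.CQ`.
-/

namespace Y616CQ

open Finset Filter MeasureTheory H761CQ

/-- After `q` queries the algorithm `A` knows a clique with `k` vertices of the graph `G`: all its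
pairs have been queried and are edges. -/
def Knows {n : ℕ} (A : Alg n) (q k : ℕ) (G : Sym2 (Fin n) → Bool) : Prop :=
  ∃ K : Finset (Fin n), K.card = k ∧ ∀ e ∈ prs K, e ∈ qd A G q ∧ G e = true

open Classical in
/-- The probability (over the uniformly random graph) that `A` knows a `k`-clique after `q`
queries. -/
noncomputable def pk {n : ℕ} (A : Alg n) (q k : ℕ) : ℝ :=
  ((univ.filter fun G : Sym2 (Fin n) → Bool => Knows A q k G).card : ℝ) /
    Fintype.card (Sym2 (Fin n) → Bool)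

/-- The proportion of the subsets of an `M`-element set which have at least `m` elements. -/
noncomputable def bt (M m : ℕ) : ℝ :=
  ((univ.filter fun S : Finset (Fin M) => m ≤ S.card).card : ℝ) / 2 ^ M

open Classical in
/-- The probability that the random graph on `m` vertices has a clique with `k` vertices. -/
noncomputable def cq (m k : ℕ) : ℝ :=
  ((univ.filter fun G : Sym2 (Fin m) → Bool =>
      ∃ K : Finset (Fin m), K.card = k ∧ ∀ e ∈ prs K, G e = true).card : ℝ) /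
    Fintype.card (Sym2 (Fin m) → Bool)

/-- the neighbours of the vertex `0` among the others -/
def nbr {M : ℕ} (G : Sym2 (Fin (M + 1)) → Bool) : Finset (Fin M) :=
  univ.filter fun j => G s(0, j.succ) = true

/-- the first `m` elements of `S`, as vertices different from `0` -/
noncomputable def emb {M : ℕ} (m : ℕ) (S : Finset (Fin M)) : Fin m → Fin (M + 1) :=
  if h : m ≤ S.card then fun i => (S.orderEmbOfFin rfl (Fin.castLE h i)).succ else fun _ => 0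

/-- the graph induced on the first `m` neighbours of the vertex `0` -/
noncomputable def ind {M : ℕ} (m : ℕ) (G : Sym2 (Fin (M + 1)) → Bool) : Sym2 (Fin m) → Bool :=
  fun e => G (e.map (emb m (nbr G)))

/-- CL-SEM: query all pairs at the vertex `0`, then run `A` on the first `m` neighbours. -/
def StSem : Prop := ∀ (m M : ℕ) (A : Alg m), ∃ B : Alg (M + 1),
  ∀ (G : Sym2 (Fin (M + 1)) → Bool) (q k : ℕ), m ≤ (nbr G).card →
    Knows A q k (ind m G) → Knows B (M + q) (k + 1) G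

open Classical in
/-- CL-CNT: given at least `m` neighbours, the induced graph on the first `m` neighbours is
uniformly random. -/
def StCnt : Prop := ∀ (m M : ℕ) (P : (Sym2 (Fin m) → Bool) → Prop),
  bt M m * (((univ.filter fun G : Sym2 (Fin m) → Bool => P G).card : ℝ) /
      Fintype.card (Sym2 (Fin m) → Bool)) =
    ((univ.filter fun G : Sym2 (Fin (M + 1)) → Bool => m ≤ (nbr G).card ∧ P (ind m G)).card : ℝ) /
      Fintype.card (Sym2 (Fin (M + 1)) → Bool)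

/-- one greedy step (from CL-SEM and CL-CNT) -/
def StStep : Prop := ∀ (m M : ℕ) (A : Alg m), ∃ B : Alg (M + 1),
  ∀ q k : ℕ, bt M m * pk A q k ≤ pk B (M + q) (k + 1)

/-- CL-EMB: an algorithm may ignore vertices; one may ask more and be content with less. -/
def StEmb : Prop :=
  (∀ (m n : ℕ), m ≤ n → ∀ A : Alg m, ∃ B : Alg n, ∀ q k : ℕ, pk A q k ≤ pk B q k) ∧
  (∀ (n : ℕ) (A : Alg n) (q q' k k' : ℕ), q ≤ q' → k' ≤ k → pk A q k ≤ pk A q' k') ∧
  (∀ (n : ℕ) (A : Alg n) (q k : ℕ), 0 ≤ pk A q k ∧ pk A q k ≤ 1)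

/-- CL-ALL: with `m ^ 2` queries one sees the whole graph. -/
def StAll : Prop := ∀ m : ℕ, 1 ≤ m → ∃ A : Alg m, ∀ k : ℕ, pk A (m * m) k = cq m k

/-- CL-CLQ: the clique number of the random graph is at least `(2 - ε) log m`. -/
def StClq : Prop := ∀ ε : ℝ, 0 < ε → ε < 1 →
  Tendsto (fun m : ℕ => cq m ⌊(2 - ε) * Real.logb 2 m⌋₊) atTop (nhds 1)

/-- CL-BIN: binomial tails. -/
def StBin : Prop := (∀ m : ℕ, 1 / 2 ≤ bt (2 * m) m) ∧
  ∀ r m M : ℕ, 1 ≤ r → 1 ≤ m → (2 * r + 1) * m ≤ r * M →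
    1 - (2 * r + 1 : ℝ) ^ 2 / m ≤ bt M m

/-- CL-DET: the bound for `N ^ (1 + η)` queries with a polynomially small probability. -/
def StDet : Prop := ∀ c : ℝ, 3 / 2 < c → ∃ η : ℝ, 0 < η ∧ η ≤ 1 / 2 ∧
  ∀ᶠ N : ℕ in atTop, ∀ q k : ℕ, (q : ℝ) ≤ (N : ℝ) ^ (1 + η) → c * Real.logb 2 N ≤ k →
    ∀ A : Alg N, pk A q k ≤ 14 * (N : ℝ) ^ (η - 2)

/-- CL-ITU: `g` greedy steps, each doubling the number of vertices. -/
def StItU : Prop := ∀ (g n : ℕ) (A : Alg n), ∃ B : Alg (2 ^ g * (n + 1) - 1),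
  ∀ q k : ℕ, pk A q k ≤ 2 ^ g * pk B (q + 2 ^ (g + 1) * (n + 1)) (k + g)

/-- CL-UPN: the upper bound for every exponent. -/
def StUp : Prop := ∀ θ c : ℝ, 1 ≤ θ → 1 + θ / 2 < c → ∃ η : ℝ, 0 < η ∧
  ∀ᶠ n : ℕ in atTop, ∀ q k : ℕ, (q : ℝ) ≤ (n : ℝ) ^ (θ + η) → c * Real.logb 2 n ≤ k →
    ∀ A : Alg n, pk A q k ≤ 1 / (n : ℝ)

/-- numbers of vertices in the greedy algorithm, from the end -/
def sq (r : ℕ) (m : ℕ) : ℕ → ℕ
  | 0 => m
  | i + 1 => 2 * sq r m i + sq r m i / r + 2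

/-- CL-ITL: `g` greedy steps with high probability. -/
def StItL : Prop := ∀ (r m g : ℕ) (A : Alg m), 1 ≤ r → 2 * r ≤ m →
  (sq r m g : ℝ) ≤ (2 + 2 / (r : ℝ)) ^ g * m ∧
  ∃ B : Alg (sq r m g), ∀ q k : ℕ,
    (1 - 2 * (2 * r + 1 : ℝ) ^ 2 / m) * pk A q k ≤ pk B (q + 2 * sq r m g) (k + g)

/-- CL-LOW: the lower bound for every exponent. -/
def StLow : Prop := ∀ θ c : ℝ, 1 ≤ θ → θ ≤ 2 → c < 1 + θ / 2 →
  ∃ (q : ℕ → ℕ) (A : ∀ n, Alg (n + 1)),
    (∀ᶠ n : ℕ in atTop, (q n : ℝ) ≤ 3 * ((n + 1 : ℕ) : ℝ) ^ θ) ∧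
    Tendsto (fun n : ℕ => pk (A n) (q n) ⌈c * Real.logb 2 ((n + 1 : ℕ) : ℝ)⌉₊) atTop (nhds 1)

/-- CL-REL: an algorithm with `q` queries needs only `2 q` vertices. -/
def StRel : Prop := ∀ (n q : ℕ) (A : Alg n), ∃ B : Alg (2 * q + 1), ∀ k : ℕ, pk A q k ≤ pk B q k

/-- CL-UPS: the upper bound for small exponents. -/
def StUpS : Prop := ∀ θ c : ℝ, 0 < θ → θ ≤ 1 → 3 * θ / 2 < c → ∃ η : ℝ, 0 < η ∧
  ∀ᶠ n : ℕ in atTop, ∀ q k : ℕ, (q : ℝ) ≤ (n : ℝ) ^ (θ + η) → c * Real.logb 2 n ≤ k →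
    ∀ A : Alg n, pk A q k ≤ (n : ℝ) ^ (-θ)

/-- CL-LOS: the lower bound for small exponents. -/
def StLowS : Prop := ∀ θ c : ℝ, 0 < θ → θ ≤ 1 → c < 3 * θ / 2 →
  ∃ (q : ℕ → ℕ) (A : ∀ n, Alg (n + 1)),
    (∀ᶠ n : ℕ in atTop, (q n : ℝ) ≤ 3 * ((n + 1 : ℕ) : ℝ) ^ θ) ∧
    Tendsto (fun n : ℕ => pk (A n) (q n) ⌈c * Real.logb 2 ((n + 1 : ℕ) : ℝ)⌉₊) atTop (nhds 1)

end Y616CQ
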