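import Mathlib
import Pool.Agent.Y616.CQ.Stm
import Pool.Agent.Y616.CQ.Cnt0

/-!
Project CL: an algorithm may ignore vertices; monotonicity.
-/

namespace Y616CQ

open Finset Filter MeasureTheory H761CQ

lemma prs_mono {n : ℕ} {K K' : Finset (Fin n)} (h : K ⊆ K') : prs K ⊆ prs K' := by
  intro e he
  simp only [prs, mem_filter] at he ⊢
  exact ⟨Finset.sym2_mono h he.1, he.2⟩

lemma qd_mono {n : ℕ} (A : Alg n) (G : Sym2 (Fin n) → Bool) {t t' : ℕ} (h : t ≤ t') :
    qd A G t ⊆ qd A G t' :=
  image_subset_image (range_subset_range.mpr h)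

lemma knows_mono {n : ℕ} (A : Alg n) (G : Sym2 (Fin n) → Bool) {q q' k k' : ℕ} (hq : q ≤ q')
    (hk : k' ≤ k) (h : Knows A q k G) : Knows A q' k' G := by
  obtain ⟨K, hK, hh⟩ := h
  obtain ⟨K', hK's, hK'c⟩ := exists_subset_card_eq (hK ▸ hk : k' ≤ K.card)
  exact ⟨K', hK'c, fun e he => ⟨qd_mono A G hq (hh e (prs_mono hK's he)).1,
    (hh e (prs_mono hK's he)).2⟩⟩

/-- the algorithm `A` on the first `m` of `n` vertices -/
def up {m n : ℕ} (h : m ≤ n) (A : Alg m) : Alg n where
  next l := (A.next l).map (Fin.castLE h)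
  out _ := ∅

lemma ans_up {m n : ℕ} (h : m ≤ n) (A : Alg m) (G : Sym2 (Fin n) → Bool) (t : ℕ) :
    ans (up h A) G t = ans A (fun e => G (e.map (Fin.castLE h))) t := by
  induction t with
  | zero => rfl
  | succ t ih => simp only [ans, ih]; rfl

lemma knows_up {m n : ℕ} (h : m ≤ n) (A : Alg m) (G : Sym2 (Fin n) → Bool) (q k : ℕ)
    (hK : Knows A q k (fun e => G (e.map (Fin.castLE h)))) : Knows (up h A) q k G := by
  obtain ⟨K, hKc, hh⟩ := hK
  refine ⟨K.map (Fin.castLEEmb h), by rw [card_map, hKc], ?_⟩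
  intro e he
  induction e using Sym2.ind with
  | _ x y =>
    simp only [prs, mem_filter, Finset.mk_mem_sym2_iff, Sym2.mk_isDiag_iff, Finset.mem_map] at he
    obtain ⟨⟨⟨x', hx', rfl⟩, y', hy', rfl⟩, hne⟩ := he
    have hne' : x' ≠ y' := fun hxy => hne (by rw [hxy])
    have h1 : s(x', y') ∈ prs K := by
      simp only [prs, mem_filter, Finset.mk_mem_sym2_iff, Sym2.mk_isDiag_iff]
      exact ⟨⟨hx', hy'⟩, hne'⟩
    obtain ⟨h2, h3⟩ := hh _ h1
    refine ⟨?_, by simpa using h3⟩
    simp only [qd, mem_image, mem_range] at h2 ⊢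
    obtain ⟨i, hi, hie⟩ := h2
    refine ⟨i, hi, ?_⟩
    rw [ans_up]
    simp only [up, hie]
    rfl

theorem stEmb : StEmb := by
  classical
  refine ⟨?_, ?_, ?_⟩
  · intro m n h A
    refine ⟨up h A, fun q k => ?_⟩
    have hinj : Function.Injective (Sym2.map (Fin.castLE h)) :=
      Sym2.map.injective (Fin.castLE_injective h)
    have hc := cnt1 (Sym2.map (Fin.castLE h)) hinj (fun G => Knows A q k G)
    unfold pk
    rw [div_le_div_iff₀ (by exact_mod_cast Fintype.card_pos) (by exact_mod_cast Fintype.card_pos)]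
    have h1 : (univ.filter fun G : Sym2 (Fin n) → Bool =>
        Knows A q k (fun e => G (e.map (Fin.castLE h)))) ⊆
        (univ.filter fun G : Sym2 (Fin n) → Bool => Knows (up h A) q k G) := by
      intro G hG
      rw [mem_filter] at hG ⊢
      exact ⟨mem_univ _, knows_up h A G q k hG.2⟩
    have h2 := card_le_card h1
    have h3 : Fintype.card (Sym2 (Fin n) → Bool) = 2 ^ Fintype.card (Sym2 (Fin n)) := by simp
    have h4 : Fintype.card (Sym2 (Fin m) → Bool) = 2 ^ Fintype.card (Sym2 (Fin m)) := by simp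
    have h5 : (univ.filter fun G : Sym2 (Fin m) → Bool => Knows A q k G).card *
        Fintype.card (Sym2 (Fin n) → Bool) ≤
        (univ.filter fun G : Sym2 (Fin n) → Bool => Knows (up h A) q k G).card *
        Fintype.card (Sym2 (Fin m) → Bool) := by
      rw [h3, h4]
      calc _ = (univ.filter fun G : Sym2 (Fin n) → Bool =>
        Knows A q k (fun e => G (e.map (Fin.castLE h)))).card * 2 ^ Fintype.card (Sym2 (Fin m)) := by
            exact hc.symm
        _ ≤ _ := Nat.mul_le_mul_right _ h2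
    exact_mod_cast h5
  · intro n A q q' k k' hq hk
    unfold pk
    apply div_le_div_of_nonneg_right _ (by positivity)
    have : (univ.filter fun G : Sym2 (Fin n) → Bool => Knows A q k G) ⊆
        (univ.filter fun G : Sym2 (Fin n) → Bool => Knows A q' k' G) := by
      intro G hG
      rw [mem_filter] at hG ⊢
      exact ⟨mem_univ _, knows_mono A G hq hk hG.2⟩
    exact_mod_cast card_le_card this
  · intro n A q k
    unfold pk
    refine ⟨by positivity, ?_⟩
    rw [div_le_one (by exact_mod_cast Fintype.card_pos)]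
    exact_mod_cast card_le_univ _

end Y616CQ
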