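import Mathlib
import Pool.Agent.Y616.CQ.Stm
import Pool.Agent.Y616.CQ.Emb

/-!
Project CL: the greedy step as a query algorithm.
-/

namespace Y616CQ

open Finset Filter MeasureTheory H761CQ

lemma ans_length {n : ℕ} (A : Alg n) (G : Sym2 (Fin n) → Bool) (t : ℕ) :
    (ans A G t).length = t := by
  induction t with
  | zero => rfl
  | succ t ih => simp [ans, ih]

/-- the set of neighbours read off from the list of the first `M` answers -/
def rd {M : ℕ} (st : List Bool) : Finset (Fin M) :=
  univ.filter fun j => st.getD (M - 1 - j) false = true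

open Classical in
/-- first all pairs at the vertex `0`, then `A` on the first `m` neighbours -/
noncomputable def grd {m : ℕ} (M : ℕ) (A : Alg m) : Alg (M + 1) where
  next h := if ht : h.length < M then s(0, (Fin.mk h.length ht).succ)
    else (A.next (h.take (h.length - M))).map (emb m (rd (h.drop (h.length - M))))
  out _ := ∅

lemma grd_star {m M : ℕ} (A : Alg m) (G : Sym2 (Fin (M + 1)) → Bool) (t : ℕ) (ht : t < M) :
    (grd M A).next (ans (grd M A) G t) = s(0, (Fin.mk t ht).succ) := by
  have hl := ans_length (grd M A) G t
  have h : (ans (grd M A) G t).length < M := by omega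
  simp only [grd] at h ⊢
  rw [dif_pos h]
  congr!

lemma ans_getD {n : ℕ} (A : Alg n) (G : Sym2 (Fin n) → Bool) (t i : ℕ) (hi : i < t) :
    (ans A G t).getD (t - 1 - i) false = G (A.next (ans A G i)) := by
  induction t with
  | zero => omega
  | succ t ih =>
    rcases Nat.lt_succ_iff_lt_or_eq.mp hi with h | h
    · have h1 : t + 1 - 1 - i = (t - 1 - i) + 1 := by omega
      rw [h1]
      simp only [ans, List.getD_cons_succ]
      exact ih h
    · subst h
      simp [ans]

lemma rd_star {m M : ℕ} (A : Alg m) (G : Sym2 (Fin (M + 1)) → Bool) :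
    rd (ans (grd M A) G M) = nbr G := by
  ext j
  simp only [rd, nbr, mem_filter, mem_univ, true_and]
  rw [ans_getD _ _ _ _ j.2, grd_star A G j j.2]

lemma ans_grd {m M : ℕ} (A : Alg m) (G : Sym2 (Fin (M + 1)) → Bool) (t : ℕ) :
    ans (grd M A) G (M + t) = ans A (ind m G) t ++ ans (grd M A) G M := by
  induction t with
  | zero => rfl
  | succ t ih =>
    have h1 : ans (grd M A) G (M + (t + 1)) =
      G ((grd M A).next (ans (grd M A) G (M + t))) :: ans (grd M A) G (M + t) := rfl
    have h2 : ans A (ind m G) (t + 1) =
      ind m G (A.next (ans A (ind m G) t)) :: ans A (ind m G) t := rfl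
    rw [h1, h2, List.cons_append, ← ih]
    congr 1
    have hl := ans_length (grd M A) G (M + t)
    have hlt := ans_length A (ind m G) t
    have hn : (grd M A).next (ans (grd M A) G (M + t)) =
        (A.next (ans A (ind m G) t)).map (emb m (nbr G)) := by
      have hnot : ¬ (ans (grd M A) G (M + t)).length < M := by omega
      have h3 : (ans (grd M A) G (M + t)).length - M = t := by omega
      have h4 : (ans (grd M A) G (M + t)).take t = ans A (ind m G) t := by
        rw [ih, List.take_left' hlt]
      have h5 : (ans (grd M A) G (M + t)).drop t = ans (grd M A) G M := by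
        rw [ih, List.drop_left' hlt]
      have h6 : (grd M A).next (ans (grd M A) G (M + t)) =
          (A.next ((ans (grd M A) G (M + t)).take ((ans (grd M A) G (M + t)).length - M))).map
            (emb m (rd ((ans (grd M A) G (M + t)).drop
              ((ans (grd M A) G (M + t)).length - M)))) := by
        conv_lhs => unfold grd
        simp only
        rw [dif_neg]
        · rfl
        · exact hnot
      rw [h6, h3, h4, h5, rd_star]
    rw [hn]
    rfl

lemma emb_inj {M m : ℕ} (S : Finset (Fin M)) (h : m ≤ S.card) :
    Function.Injective (emb m S) := by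
  intro x y hxy
  simp only [emb, dif_pos h] at hxy
  have h1 := Fin.succ_injective _ hxy
  have h2 := (S.orderEmbOfFin rfl).injective h1
  exact Fin.castLE_injective h h2

lemma emb_mem {M m : ℕ} (S : Finset (Fin M)) (h : m ≤ S.card) (i : Fin m) :
    ∃ j ∈ S, emb m S i = j.succ := by
  refine ⟨S.orderEmbOfFin rfl (Fin.castLE h i), Finset.orderEmbOfFin_mem _ _ _, ?_⟩
  simp only [emb, dif_pos h]

theorem stSem : StSem := by
  classical
  intro m M A
  refine ⟨grd M A, fun G q k hm hK => ?_⟩
  obtain ⟨K, hKc, hh⟩ := hK
  have hinj := emb_inj (nbr G) hm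
  have h0 : (0 : Fin (M + 1)) ∉ K.image (emb m (nbr G)) := by
    intro h
    rw [mem_image] at h
    obtain ⟨x, _, hx⟩ := h
    obtain ⟨j, _, hj⟩ := emb_mem (nbr G) hm x
    rw [hj] at hx
    exact Fin.succ_ne_zero _ hx
  have hstar : ∀ x : Fin m, s((0 : Fin (M + 1)), emb m (nbr G) x) ∈ qd (grd M A) G (M + q) ∧
      G s(0, emb m (nbr G) x) = true := by
    intro x
    obtain ⟨j, hj1, hj2⟩ := emb_mem (nbr G) hm x
    rw [hj2]
    simp only [nbr, mem_filter, mem_univ, true_and] at hj1
    refine ⟨?_, hj1⟩
    simp only [qd, mem_image, mem_range]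
    exact ⟨j, by have := j.2; omega, grd_star A G j j.2⟩
  refine ⟨insert 0 (K.image (emb m (nbr G))), ?_, ?_⟩
  · rw [card_insert_of_notMem h0, card_image_of_injective _ hinj, hKc]
  · intro e he
    induction e using Sym2.ind with
    | _ x y =>
      simp only [prs, mem_filter, Finset.mk_mem_sym2_iff, Sym2.mk_isDiag_iff, mem_insert,
        mem_image] at he
      obtain ⟨⟨hx, hy⟩, hne⟩ := he
      rcases hx with rfl | ⟨x', hx', rfl⟩
      · rcases hy with rfl | ⟨y', hy', rfl⟩
        · exact absurd rfl hne
        · exact hstar y'
      · rcases hy with rfl | ⟨y', hy', rfl⟩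
        · rw [Sym2.eq_swap]; exact hstar x'
        · have hne' : x' ≠ y' := fun hxy => hne (by rw [hxy])
          have h1 : s(x', y') ∈ prs K := by
            simp only [prs, mem_filter, Finset.mk_mem_sym2_iff, Sym2.mk_isDiag_iff]
            exact ⟨⟨hx', hy'⟩, hne'⟩
          obtain ⟨h2, h3⟩ := hh _ h1
          refine ⟨?_, h3⟩
          simp only [qd, mem_image, mem_range] at h2 ⊢
          obtain ⟨i, hi, hie⟩ := h2
          refine ⟨M + i, by omega, ?_⟩
          have hl := ans_length (grd M A) G (M + i)
          have hlt := ans_length A (ind m G) i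
          have hnot : ¬ (ans (grd M A) G (M + i)).length < M := by omega
          have h3 : (ans (grd M A) G (M + i)).length - M = i := by omega
          have h6 : (grd M A).next (ans (grd M A) G (M + i)) =
              (A.next ((ans (grd M A) G (M + i)).take ((ans (grd M A) G (M + i)).length - M))).map
                (emb m (rd ((ans (grd M A) G (M + i)).drop
                  ((ans (grd M A) G (M + i)).length - M)))) := by
            conv_lhs => unfold grd
            simp only
            rw [dif_neg]
            · rfl
            · exact hnot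
          have h4 : (ans (grd M A) G (M + i)).take i = ans A (ind m G) i := by
            rw [ans_grd, List.take_left' hlt]
          have h5 : (ans (grd M A) G (M + i)).drop i = ans (grd M A) G M := by
            rw [ans_grd, List.drop_left' hlt]
          rw [h6, h3, h4, h5, rd_star, hie]
          rfl

end Y616CQ
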