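import Mathlib
import Pool.Agent.H761R3.CQ.Main
import Pool.Agent.Y616.CQ.Stm

/-!
Finding cliques in the random graph with `n ^ θ` adaptive queries: the final statement and the
statement `StOut` (project CL of helper616).
-/

namespace Y616CQ

open Finset Filter MeasureTheory H761CQ

/-- CL-OUT: unlimited computing power finds the output from the answers. -/
def StOut : Prop := ∀ (n q : ℕ) (A : Alg n), ∃ A' : Alg n,
  ∀ (k : ℕ) (G : Sym2 (Fin n) → Bool), Knows A q k G → Finds A' q (k : ℝ) G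

/-- `c` is achievable with `n ^ θ` queries up to powers of `log n`: there are a constant `C` and a
randomised query algorithm which, for every `n ≥ 1`, makes at most `C n ^ θ (log n) ^ C` queries
and finds a clique of size at least `c log n` in the random graph on `n` vertices with probability
tending to `1`. -/
def AchievableAt (θ c : ℝ) : Prop :=
  ∃ (C : ℕ) (q : ℕ → ℕ),
    (∀ n : ℕ, (q n : ℝ) ≤ C * ((n + 1 : ℕ) : ℝ) ^ θ * (Real.logb 2 ((n + 1 : ℕ) : ℝ)) ^ C) ∧
    ∃ (Ω : ℕ → Type) (_ : ∀ n, MeasurableSpace (Ω n)) (μ : ∀ n, Measure (Ω n))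
      (_ : ∀ n, IsProbabilityMeasure (μ n)) (A : ∀ n, Ω n → Alg (n + 1)),
      Tendsto (fun n : ℕ => ∫⁻ ω, ENNReal.ofReal
        (succ (A n ω) (q n) (c * Real.logb 2 ((n + 1 : ℕ) : ℝ))) ∂(μ n)) atTop (nhds 1)

/-- The final statement: (1) for every `0 < θ ≤ 2` the supremum of the achievable `c` is
`min (3 θ / 2) (1 + θ / 2)`; (2) above it even `n ^ (θ + η)` queries find a clique with probability
at most `n ^ (- min θ 1)` only. -/
def StMain : Prop :=
  (∀ θ : ℝ, 0 < θ → θ ≤ 2 → IsLUB {c : ℝ | AchievableAt θ c} (min (3 * θ / 2) (1 + θ / 2))) ∧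
  ∀ θ c : ℝ, 0 < θ → min (3 * θ / 2) (1 + θ / 2) < c → ∃ η : ℝ, 0 < η ∧
    ∀ᶠ n : ℕ in atTop, ∀ q : ℕ, (q : ℝ) ≤ (n : ℝ) ^ (θ + η) →
      ∀ (Ω : Type) [MeasurableSpace Ω] (μ : Measure Ω) [IsProbabilityMeasure μ] (A : Ω → Alg n),
        ∫⁻ ω, ENNReal.ofReal (succ (A ω) q (c * Real.logb 2 n)) ∂μ ≤
          ENNReal.ofReal ((n : ℝ) ^ (-min θ 1))

end Y616CQ
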