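import Mathlib
import Pool.Agent.Y616.CQ.Stm2
import Pool.Agent.Y616.CQ.Sem

/-!
Project CL: query everything; compute the output from the answers.
-/

namespace Y616CQ

open Finset Filter MeasureTheory H761CQ

/-- ask the pairs `f 0, f 1, …` -/
def seqAlg {m : ℕ} (f : ℕ → Sym2 (Fin m)) : Alg m where
  next h := f h.length
  out _ := ∅

lemma qd_seqAlg {m : ℕ} (f : ℕ → Sym2 (Fin m)) (G : Sym2 (Fin m) → Bool) (t : ℕ) :
    qd (seqAlg f) G t = (range t).image f := by
  unfold qd
  apply image_congr
  intro i _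
  simp only [seqAlg]
  rw [ans_length]

theorem stAll : StAll := by
  classical
  intro m hm
  haveI : NeZero m := ⟨by omega⟩
  set f : ℕ → Sym2 (Fin m) := fun i => s(Fin.ofNat m (i / m), Fin.ofNat m i) with hf
  have hsurj : ∀ e : Sym2 (Fin m), e ∈ (range (m * m)).image f := by
    intro e
    induction e using Sym2.ind with
    | _ x y =>
      rw [mem_image]
      refine ⟨x * m + y, ?_, ?_⟩
      · rw [mem_range]
        have h1 := x.2
        have h2 := y.2
        nlinarith
      · simp only [hf]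
        have h1 : ((x : ℕ) * m + y) / m = x := by
          rw [mul_comm, Nat.mul_add_div (by omega)]
          rw [Nat.div_eq_of_lt y.2, add_zero]
        have h2 : Fin.ofNat m (x : ℕ) = x := by ext; simp [Fin.ofNat, Nat.mod_eq_of_lt x.2]
        have h3 : Fin.ofNat m ((x : ℕ) * m + y) = y := by
          ext
          show ((x : ℕ) * m + y) % m = y
          rw [add_comm, Nat.add_mul_mod_self_right, Nat.mod_eq_of_lt y.2]
        rw [h1, h2, h3]
  refine ⟨seqAlg f, fun k => ?_⟩
  unfold pk cq
  congr 2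
  congr 1
  ext G
  simp only [mem_filter, mem_univ, true_and, Knows]
  constructor
  · rintro ⟨K, h1, h2⟩
    exact ⟨K, h1, fun e he => (h2 e he).2⟩
  · rintro ⟨K, h1, h2⟩
    refine ⟨K, h1, fun e he => ⟨?_, h2 e he⟩⟩
    rw [qd_seqAlg]
    exact hsurj e

/-- the pairs which have been asked and answered yes, from the list of the answers -/
def yes {n : ℕ} (A : Alg n) (h : List Bool) : Finset (Sym2 (Fin n)) :=
  ((range h.length).filter fun i => h.getD (h.length - 1 - i) false = true).image
    fun i => A.next (h.drop (h.length - i))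

lemma ans_drop {n : ℕ} (A : Alg n) (G : Sym2 (Fin n) → Bool) (t i : ℕ) (hi : i ≤ t) :
    (ans A G t).drop (t - i) = ans A G i := by
  induction t with
  | zero =>
    have : i = 0 := by omega
    subst this
    rfl
  | succ t ih =>
    rcases Nat.eq_or_lt_of_le hi with h | h
    · subst h
      simp
    · have h1 : t + 1 - i = (t - i) + 1 := by omega
      rw [h1]
      simp only [ans, List.drop_succ_cons]
      exact ih (by omega)

lemma yes_ans {n : ℕ} (A : Alg n) (G : Sym2 (Fin n) → Bool) (q : ℕ) (e : Sym2 (Fin n)) :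
    e ∈ yes A (ans A G q) ↔ e ∈ qd A G q ∧ G e = true := by
  simp only [yes, qd, mem_image, mem_filter, mem_range, ans_length]
  constructor
  · rintro ⟨i, ⟨hi, h1⟩, rfl⟩
    rw [ans_getD A G q i hi] at h1
    rw [ans_drop A G q i hi.le]
    exact ⟨⟨i, hi, rfl⟩, h1⟩
  · rintro ⟨⟨i, hi, rfl⟩, h1⟩
    refine ⟨i, ⟨hi, ?_⟩, ?_⟩
    · rw [ans_getD A G q i hi]; exact h1
    · rw [ans_drop A G q i hi.le]

lemma exists_best {n : ℕ} (Y : Finset (Sym2 (Fin n))) : ∃ K : Finset (Fin n), prs K ⊆ Y ∧
    ∀ K' : Finset (Fin n), prs K' ⊆ Y → K'.card ≤ K.card := by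
  classical
  obtain ⟨K, hK, hmax⟩ := Finset.exists_max_image
    (univ.filter fun K : Finset (Fin n) => prs K ⊆ Y) (fun K => K.card)
    ⟨∅, by rw [mem_filter]; exact ⟨mem_univ _, by intro e he; simp [prs] at he⟩⟩
  rw [mem_filter] at hK
  exact ⟨K, hK.2, fun K' hK' => hmax K' (by rw [mem_filter]; exact ⟨mem_univ _, hK'⟩)⟩

/-- `A` with the best output -/
noncomputable def best {n : ℕ} (A : Alg n) : Alg n where
  next := A.next
  out h := (exists_best (yes A h)).choose

lemma ans_best {n : ℕ} (A : Alg n) (G : Sym2 (Fin n) → Bool) (t : ℕ) :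
    ans (best A) G t = ans A G t := by
  induction t with
  | zero => rfl
  | succ t ih => simp only [ans, ih]; rfl

lemma qd_best {n : ℕ} (A : Alg n) (G : Sym2 (Fin n) → Bool) (t : ℕ) :
    qd (best A) G t = qd A G t := by
  unfold qd
  apply image_congr
  intro i _
  show (best A).next (ans (best A) G i) = A.next (ans A G i)
  rw [ans_best]
  rfl

theorem stOut : StOut := by
  intro n q A
  refine ⟨best A, fun k G hK => ?_⟩
  obtain ⟨K, hKc, hh⟩ := hK
  unfold Finds
  rw [ans_best, qd_best]
  have hout : (best A).out (ans A G q) = (exists_best (yes A (ans A G q))).choose := rfl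
  rw [hout]
  obtain ⟨h1, h2⟩ := (exists_best (yes A (ans A G q))).choose_spec
  refine ⟨?_, ?_⟩
  · have h3 := h2 K (fun e he => (yes_ans A G q e).mpr (hh e he))
    rw [← hKc]
    exact_mod_cast h3
  · intro x hx y hy hxy
    apply (yes_ans A G q _).mp
    apply h1
    simp only [prs, mem_filter, Finset.mk_mem_sym2_iff, Sym2.mk_isDiag_iff]
    exact ⟨⟨hx, hy⟩, hxy⟩

end Y616CQ
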