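import Mathlib
import Pool.Agent.Y616.CQ.Stm

/-!
Project CL: binomial tails.
-/

namespace Y616CQ

open Finset Filter MeasureTheory H761CQ

lemma cheb_sum {α : Type} [DecidableEq α] (s : Finset α) :
    ∑ t ∈ s.powerset, ((2 : ℝ) * (t.card : ℝ) - (s.card : ℝ)) ^ 2 = (s.card : ℝ) * 2 ^ s.card := by
  induction s using Finset.induction_on with
  | empty => simp
  | insert a s ha ih =>
    rw [sum_powerset_insert ha, card_insert_of_notMem ha]
    have h1 : ∑ t ∈ s.powerset, (2 * ((insert a t).card : ℝ) - ((s.card + 1 : ℕ) : ℝ)) ^ 2 =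
        ∑ t ∈ s.powerset, (2 * (t.card : ℝ) - s.card + 1) ^ 2 := by
      apply sum_congr rfl
      intro t ht
      have : a ∉ t := fun h => ha (mem_powerset.mp ht h)
      rw [card_insert_of_notMem this]
      push_cast
      ring
    rw [h1, ← sum_add_distrib]
    have h2 : ∑ t ∈ s.powerset, ((2 * (t.card : ℝ) - ((s.card + 1 : ℕ) : ℝ)) ^ 2 +
        (2 * (t.card : ℝ) - s.card + 1) ^ 2) =
        ∑ t ∈ s.powerset, (2 * (2 * (t.card : ℝ) - s.card) ^ 2 + 2) := by
      apply sum_congr rfl
      intro t _
      push_cast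
      ring
    rw [h2, sum_add_distrib, ← mul_sum, ih, sum_const, card_powerset, nsmul_eq_mul]
    push_cast
    ring

theorem stBin : StBin := by
  constructor
  · intro m
    unfold bt
    rw [le_div_iff₀ (by positivity)]
    have h1 : (univ.filter fun S : Finset (Fin (2 * m)) => ¬ m ≤ S.card).card ≤
        (univ.filter fun S : Finset (Fin (2 * m)) => m ≤ S.card).card := by
      apply card_le_card_of_injOn (fun S => Sᶜ)
      · intro S hS
        simp only [coe_filter, mem_univ, true_and, Set.mem_setOf_eq] at hS ⊢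
        rw [card_compl, Fintype.card_fin]
        omega
      · intro S _ T _ h
        exact compl_injective h
    have h2 := card_filter_add_card_filter_not (s := (univ : Finset (Finset (Fin (2 * m)))))
      (fun S => m ≤ S.card)
    have h3 : (univ : Finset (Finset (Fin (2 * m)))).card = 2 ^ (2 * m) := by simp
    rw [h3] at h2
    have h4 : 2 ^ (2 * m) ≤ 2 * (univ.filter fun S : Finset (Fin (2 * m)) => m ≤ S.card).card := by
      omega
    have h5 : ((2 ^ (2 * m) : ℕ) : ℝ) ≤
        ((2 * (univ.filter fun S : Finset (Fin (2 * m)) => m ≤ S.card).card : ℕ) : ℝ) := by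
      exact_mod_cast h4
    push_cast at h5
    linarith
  · intro r m M hr hm hrM
    have hr0 : (0 : ℝ) < r := by exact_mod_cast hr
    have hm0 : (0 : ℝ) < m := by exact_mod_cast hm
    have hrM' : (2 * (r : ℝ) + 1) * m ≤ r * M := by exact_mod_cast hrM
    have hMm : (m : ℝ) ≤ M := by
      by_contra hcon
      push Not at hcon
      have : (r : ℝ) * M ≤ r * m := by
        apply mul_le_mul_of_nonneg_left hcon.le hr0.le
      nlinarith
    have hM0 : (0 : ℝ) < M := by linarith
    have hsum := cheb_sum (univ : Finset (Fin M))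
    rw [powerset_univ, card_univ, Fintype.card_fin] at hsum
    set L := univ.filter fun S : Finset (Fin M) => ¬ m ≤ S.card with hL
    have h1 : (L.card : ℝ) * (M / (2 * r + 1)) ^ 2 ≤ M * 2 ^ M := by
      rw [← hsum]
      calc (L.card : ℝ) * (M / (2 * r + 1)) ^ 2 = ∑ _S ∈ L, ((M : ℝ) / (2 * r + 1)) ^ 2 := by
            rw [sum_const, nsmul_eq_mul]
        _ ≤ ∑ S ∈ L, (2 * (S.card : ℝ) - M) ^ 2 := by
            apply sum_le_sum
            intro S hS
            rw [hL, mem_filter] at hS
            have h2 : (S.card : ℝ) ≤ m := by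
              have := hS.2
              push Not at this
              exact_mod_cast this.le
            have h3 : (M : ℝ) / (2 * r + 1) ≤ M - 2 * S.card := by
              rw [div_le_iff₀ (by positivity)]
              nlinarith
            have h4 : (2 * (S.card : ℝ) - M) ^ 2 = (M - 2 * S.card) ^ 2 := by ring
            rw [h4]
            exact pow_le_pow_left₀ (by positivity) h3 2
        _ ≤ ∑ S : Finset (Fin M), (2 * (S.card : ℝ) - M) ^ 2 :=
            sum_le_sum_of_subset_of_nonneg (filter_subset _ _) (fun _ _ _ => by positivity)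
    have h2 := card_filter_add_card_filter_not (s := (univ : Finset (Finset (Fin M))))
      (fun S => m ≤ S.card)
    have h3 : (univ : Finset (Finset (Fin M))).card = 2 ^ M := by simp
    rw [h3, ← hL] at h2
    have h4 : ((univ.filter fun S : Finset (Fin M) => m ≤ S.card).card : ℝ) = 2 ^ M - L.card := by
      have : (((univ.filter fun S : Finset (Fin M) => m ≤ S.card).card + L.card : ℕ) : ℝ) =
          ((2 ^ M : ℕ) : ℝ) := by rw [h2]
      push_cast at this
      linarith
    unfold bt
    rw [h4, sub_div, div_self (by positivity)]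
    have h5 : (L.card : ℝ) / 2 ^ M ≤ (2 * r + 1 : ℝ) ^ 2 / m := by
      rw [div_pow] at h1
      have h6 : (L.card : ℝ) * M ≤ (2 * r + 1 : ℝ) ^ 2 * 2 ^ M := by
        have h7 : (L.card : ℝ) * (M ^ 2 / (2 * r + 1) ^ 2) * ((2 * r + 1) ^ 2 / M) ≤
            M * 2 ^ M * ((2 * r + 1) ^ 2 / M) := by
          apply mul_le_mul_of_nonneg_right h1 (by positivity)
        have h8 : (L.card : ℝ) * (M ^ 2 / (2 * r + 1) ^ 2) * ((2 * r + 1) ^ 2 / M) =
            L.card * M := by field_simp
        have h9 : (M : ℝ) * 2 ^ M * ((2 * r + 1) ^ 2 / M) = (2 * r + 1 : ℝ) ^ 2 * 2 ^ M := by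
          field_simp
        linarith
      rw [div_le_div_iff₀ (by positivity) hm0]
      calc (L.card : ℝ) * m ≤ L.card * M := by gcongr
        _ ≤ _ := h6
    linarith

end Y616CQ
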