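import Pool.Agent.Y616.CQ.Stm

/-!
The clique number of the random graph, second moment (job CL-CLQ, helper543).
-/

set_option autoImplicit false

namespace Y616CQ

open Finset Filter H761CQ

theorem clq_count {m : ℕ} (E : Finset (Sym2 (Fin m))) :
    ((univ.filter fun G : Sym2 (Fin m) → Bool => ∀ e ∈ E, G e = true).card : ℝ) =
      (1 / 2) ^ E.card * Fintype.card (Sym2 (Fin m) → Bool) := by
  classical
  have h1 : (univ.filter fun G : Sym2 (Fin m) → Bool => ∀ e ∈ E, G e = true) =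
      Fintype.piFinset (fun e => if e ∈ E then ({true} : Finset Bool) else univ) := by
    ext G
    simp only [mem_filter, mem_univ, true_and, Fintype.mem_piFinset]
    constructor
    · intro h e
      split_ifs with he
      · exact mem_singleton.2 (h e he)
      · exact mem_univ _
    · intro h e he
      have := h e
      rw [if_pos he] at this
      exact mem_singleton.1 this
  rw [h1, Fintype.card_piFinset, Fintype.card_fun, Fintype.card_bool]
  have h2 : ∀ e : Sym2 (Fin m), (((if e ∈ E then ({true} : Finset Bool) else univ).card : ℕ) : ℝ) =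
      (if e ∈ E then (1 / 2 : ℝ) else 1) * 2 := by
    intro e
    split_ifs <;> simp
  push_cast
  simp_rw [h2]
  rw [Finset.prod_mul_distrib, Finset.prod_const, Finset.card_univ, Finset.prod_ite_mem,
    Finset.univ_inter, Finset.prod_const]

theorem clq_mem_prs {n : ℕ} (K : Finset (Fin n)) (x y : Fin n) :
    s(x, y) ∈ prs K ↔ x ∈ K ∧ y ∈ K ∧ x ≠ y := by
  simp [prs, and_assoc]

theorem clq_card_prs {n : ℕ} (K : Finset (Fin n)) : (prs K).card = K.card.choose 2 := by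
  unfold prs
  rw [Finset.sym2_eq_image, Sym2.filter_image_mk_not_isDiag, Sym2.card_image_offDiag]

theorem clq_prs_inter {n : ℕ} (K K' : Finset (Fin n)) : prs K ∩ prs K' = prs (K ∩ K') := by
  ext e
  induction e with
  | _ x y =>
    rw [mem_inter, clq_mem_prs, clq_mem_prs, clq_mem_prs, mem_inter, mem_inter]
    tauto

theorem clq_card_union {n : ℕ} (K K' : Finset (Fin n)) :
    (prs K ∪ prs K').card + (K ∩ K').card.choose 2 = K.card.choose 2 + K'.card.choose 2 := by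
  rw [← clq_card_prs, ← clq_card_prs, ← clq_card_prs, ← clq_prs_inter, card_union_add_card_inter]

theorem clq_choose {m k i : ℕ} (hkm : k ≤ m) (hik : i ≤ k) :
    (m - i).choose (k - i) * m ^ i ≤ m.choose k * k ^ i := by
  induction i with
  | zero => simp
  | succ i ih =>
    have ih := ih (by omega)
    obtain ⟨a, ha⟩ : ∃ a, m - i = a + 1 := ⟨m - i - 1, by omega⟩
    obtain ⟨c, hc⟩ : ∃ c, k - i = c + 1 := ⟨k - i - 1, by omega⟩
    have e1 : m - (i + 1) = a := by omega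
    have e2 : k - (i + 1) = c := by omega
    rw [ha, hc] at ih
    rw [e1, e2]
    have h1 := Nat.add_one_mul_choose_eq a c
    have h2 : (c + 1) * m ≤ k * (a + 1) := by
      have e3 : m = a + 1 + i := by omega
      have e4 : k = c + 1 + i := by omega
      have e5 : c ≤ a := by omega
      rw [e3, e4]
      nlinarith [Nat.mul_le_mul_right i e5]
    have h3 : (a + 1) * (a.choose c * m ^ (i + 1)) ≤ (a + 1) * (m.choose k * k ^ (i + 1)) := by
      calc (a + 1) * (a.choose c * m ^ (i + 1)) = ((a + 1) * a.choose c) * m ^ (i + 1) := by ring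
        _ = (((a + 1).choose (c + 1)) * m ^ i) * ((c + 1) * m) := by rw [h1]; ring
        _ ≤ (m.choose k * k ^ i) * (k * (a + 1)) := Nat.mul_le_mul ih h2
        _ = (a + 1) * (m.choose k * k ^ (i + 1)) := by ring
    exact Nat.le_of_mul_le_mul_left h3 (Nat.succ_pos a)

theorem clq_pow {k j : ℕ} (hj : j ≤ k) : (2 : ℝ) ^ (j.choose 2) ≤ ((√2 : ℝ) ^ k) ^ j := by
  have h0 : (1 : ℝ) ≤ √2 := Real.one_le_sqrt.2 (by norm_num)
  have h1 : 2 * j.choose 2 ≤ k * j := by
    rw [Nat.choose_two_right]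
    have h2 := Nat.mul_div_le (j * (j - 1)) 2
    have h3 : j * (j - 1) ≤ k * j := by
      rw [mul_comm]
      exact Nat.mul_le_mul_right j (by omega)
    omega
  calc (2 : ℝ) ^ (j.choose 2) = ((√2 : ℝ) ^ 2) ^ (j.choose 2) := by
        rw [Real.sq_sqrt (by norm_num)]
    _ = (√2 : ℝ) ^ (2 * j.choose 2) := by rw [pow_mul]
    _ ≤ (√2 : ℝ) ^ (k * j) := pow_le_pow_right₀ h0 h1
    _ = ((√2 : ℝ) ^ k) ^ j := by rw [pow_mul]

theorem clq_geom {ρ : ℝ} (h0 : 0 ≤ ρ) (h1 : ρ ≤ 1 / 2) (k : ℕ) :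
    ∑ i ∈ range (k + 1), (if 2 ≤ i then ρ ^ i else 0) ≤ 2 * ρ ^ 2 := by
  have key : ∀ n : ℕ, ∑ i ∈ range (n + 2), (if 2 ≤ i then ρ ^ i else 0) ≤
      2 * ρ ^ 2 - 2 * ρ ^ (n + 2) := by
    intro n
    induction n with
    | zero => simp [sum_range_succ]
    | succ n ih =>
      rw [sum_range_succ, if_pos (by omega)]
      have h2 : 0 ≤ ρ ^ (n + 2) := pow_nonneg h0 _
      have h3 : ρ ^ (n + 1 + 2) = ρ ^ (n + 2) * ρ := by ring
      rw [h3]
      have h4 : ρ ^ (n + 2) * ρ ≤ ρ ^ (n + 2) * (1 / 2) := mul_le_mul_of_nonneg_left h1 h2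
      linarith
  rcases k with _ | k
  · have := pow_nonneg h0 2
    simp
    linarith
  · have h2 := key k
    have h3 := pow_nonneg h0 (k + 2)
    linarith

/-- the sum over all `k`-sets `K'` for a fixed `k`-set `K` -/
theorem clq_fixed {m k : ℕ} (hkm : k ≤ m) (hm : 1 ≤ m) {ρ : ℝ} (h1 : ρ ≤ 1 / 2)
    (hρ : (k : ℝ) ^ 2 * (√2 : ℝ) ^ k ≤ ρ * m) (K : Finset (Fin m)) (hK : K.card = k) :
    ∑ K' ∈ powersetCard k (univ : Finset (Fin m)), (2 : ℝ) ^ ((K ∩ K').card.choose 2) ≤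
      (m.choose k : ℝ) * (1 + 2 * ρ ^ 2) := by
  classical
  have hm0 : (0 : ℝ) < m := by exact_mod_cast hm
  have hs0 : (0 : ℝ) < √2 ^ k := by positivity
  have hρ0 : 0 ≤ ρ := by
    by_contra h
    push Not at h
    have : ρ * m < 0 := mul_neg_of_neg_of_pos h hm0
    have h2 : (0 : ℝ) ≤ (k : ℝ) ^ 2 * (√2 : ℝ) ^ k := by positivity
    linarith
  obtain ⟨s, hs⟩ : ∃ s : ℝ, s = √2 ^ k := ⟨_, rfl⟩
  rw [← hs] at hs0 hρ
  have step1 : ∀ K' ∈ powersetCard k (univ : Finset (Fin m)),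
      (2 : ℝ) ^ ((K ∩ K').card.choose 2) ≤
        1 + ∑ T ∈ K.powerset, (if 2 ≤ T.card then (if T ⊆ K' then s ^ T.card else 0) else 0) := by
    intro K' hK'
    have hnn : ∀ T ∈ K.powerset,
        0 ≤ (if 2 ≤ T.card then (if T ⊆ K' then s ^ T.card else 0) else (0 : ℝ)) := by
      intro T _
      split_ifs <;> positivity
    by_cases hj : 2 ≤ (K ∩ K').card
    · have h2 : (if 2 ≤ (K ∩ K').card then
          (if (K ∩ K') ⊆ K' then s ^ (K ∩ K').card else 0) else (0 : ℝ)) ≤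
          ∑ T ∈ K.powerset, (if 2 ≤ T.card then (if T ⊆ K' then s ^ T.card else 0) else 0) :=
        Finset.single_le_sum (f := fun T : Finset (Fin m) =>
          (if 2 ≤ T.card then (if T ⊆ K' then s ^ T.card else 0) else (0 : ℝ))) hnn
          (mem_powerset.2 inter_subset_left)
      rw [if_pos hj, if_pos inter_subset_right] at h2
      have h3 : (K ∩ K').card ≤ k := by
        rw [← hK]
        exact card_le_card inter_subset_left
      have h4 := clq_pow h3
      rw [← hs] at h4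
      linarith
    · have h2 : (K ∩ K').card.choose 2 = 0 := Nat.choose_eq_zero_of_lt (by omega)
      rw [h2, pow_zero]
      have := Finset.sum_nonneg hnn
      linarith
  refine (Finset.sum_le_sum step1).trans ?_
  rw [Finset.sum_add_distrib, Finset.sum_const, card_powersetCard, card_univ, Fintype.card_fin,
    nsmul_eq_mul, mul_one, Finset.sum_comm, mul_add, mul_one]
  have step2 : ∀ T ∈ K.powerset, ∑ K' ∈ powersetCard k (univ : Finset (Fin m)),
      (if 2 ≤ T.card then (if T ⊆ K' then s ^ T.card else 0) else (0 : ℝ)) ≤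
        (m.choose k : ℝ) * (if 2 ≤ T.card then (s * (k / m)) ^ T.card else 0) := by
    intro T hT
    rw [mem_powerset] at hT
    have hTk : T.card ≤ k := by
      rw [← hK]
      exact card_le_card hT
    split_ifs with h2
    · rw [← Finset.sum_filter, Finset.sum_const, nsmul_eq_mul,
        card_filter_powersetCard_subset T univ k (subset_univ _) hTk, card_univ, Fintype.card_fin]
      have h3 : (((m - T.card).choose (k - T.card) : ℕ) : ℝ) * (m : ℝ) ^ T.card ≤
          (m.choose k : ℝ) * (k : ℝ) ^ T.card := by exact_mod_cast clq_choose hkm hTk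
      have h4 : (((m - T.card).choose (k - T.card) : ℕ) : ℝ) ≤
          (m.choose k : ℝ) * ((k : ℝ) / m) ^ T.card := by
        rw [div_pow, ← mul_div_assoc, le_div_iff₀ (by positivity)]
        exact h3
      calc (((m - T.card).choose (k - T.card) : ℕ) : ℝ) * s ^ T.card
          ≤ (m.choose k : ℝ) * ((k : ℝ) / m) ^ T.card * s ^ T.card := by gcongr
        _ = (m.choose k : ℝ) * (s * (k / m)) ^ T.card := by rw [mul_pow]; ring
    · simp
  have step3 := Finset.sum_le_sum step2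
  rw [← Finset.mul_sum] at step3
  have step4 : ∑ T ∈ K.powerset, (if 2 ≤ T.card then (s * (k / m)) ^ T.card else 0) ≤
      2 * ρ ^ 2 := by
    rw [Finset.sum_powerset_apply_card (fun i => if 2 ≤ i then (s * (k / m) : ℝ) ^ i else 0), hK]
    refine le_trans (Finset.sum_le_sum fun i _ => ?_) (clq_geom hρ0 h1 k)
    split_ifs with h2
    · rw [nsmul_eq_mul]
      have h3 : ((k.choose i : ℕ) : ℝ) ≤ (k : ℝ) ^ i := by
        exact_mod_cast Nat.choose_le_pow k i
      have h4 : (k : ℝ) * (s * (k / m)) ≤ ρ := by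
        have e : (k : ℝ) * (s * (k / m)) = ((k : ℝ) ^ 2 * s) / m := by ring
        rw [e, div_le_iff₀ hm0]
        exact hρ
      have h5 : 0 ≤ (s * (k / m) : ℝ) := by positivity
      calc ((k.choose i : ℕ) : ℝ) * (s * (k / m)) ^ i
          ≤ (k : ℝ) ^ i * (s * (k / m)) ^ i := by gcongr
        _ = ((k : ℝ) * (s * (k / m))) ^ i := (mul_pow _ _ _).symm
        _ ≤ ρ ^ i := by gcongr
    · simp
  have h5 : (0 : ℝ) ≤ (m.choose k : ℝ) := by positivity
  have h6 := mul_le_mul_of_nonneg_left step4 h5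
  linarith

/-- the second moment bound -/
theorem clq_main {m k : ℕ} (hkm : k ≤ m) (hm : 1 ≤ m) {ρ : ℝ} (h1 : ρ ≤ 1 / 2)
    (hρ : (k : ℝ) ^ 2 * (√2 : ℝ) ^ k ≤ ρ * m) : 1 - 2 * ρ ^ 2 ≤ cq m k := by
  classical
  obtain ⟨P, hP⟩ : ∃ P : Finset (Finset (Fin m)), P = powersetCard k (univ : Finset (Fin m)) :=
    ⟨_, rfl⟩
  obtain ⟨N, hN⟩ : ∃ N : ℝ, N = (Fintype.card (Sym2 (Fin m) → Bool) : ℝ) := ⟨_, rfl⟩
  have hN0 : 0 < N := by
    rw [hN]
    exact_mod_cast Fintype.card_pos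
  obtain ⟨c, hc⟩ : ∃ c : ℝ, c = (m.choose k : ℝ) := ⟨_, rfl⟩
  have hc0 : 0 < c := by
    rw [hc]
    exact_mod_cast Nat.choose_pos hkm
  let I : Finset (Fin m) → (Sym2 (Fin m) → Bool) → ℝ := fun K G =>
    if ∀ e ∈ prs K, G e = true then 1 else 0
  let X : (Sym2 (Fin m) → Bool) → ℝ := fun G => ∑ K ∈ P, I K G
  have hPc : ∀ K ∈ P, K.card = k := by
    intro K hK
    rw [hP] at hK
    exact (mem_powersetCard.1 hK).2
  obtain ⟨B, hB⟩ : ∃ B : ℝ, B = (1 / 2 : ℝ) ^ (k.choose 2) := ⟨_, rfl⟩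
  have hB0 : 0 < B := by
    rw [hB]
    positivity
  have hX1 : ∑ G, X G = c * B * N := by
    show ∑ G, ∑ K ∈ P, I K G = _
    rw [Finset.sum_comm]
    have : ∀ K ∈ P, ∑ G, I K G = B * N := by
      intro K hK
      show ∑ G : Sym2 (Fin m) → Bool, (if ∀ e ∈ prs K, G e = true then (1 : ℝ) else 0) = _
      rw [Finset.sum_boole, clq_count, clq_card_prs, hPc K hK, hB, hN]
    rw [Finset.sum_congr rfl this, Finset.sum_const, nsmul_eq_mul, hP, card_powersetCard,
      card_univ, Fintype.card_fin, hc]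
    ring
  have hX2 : ∑ G, X G ^ 2 ≤ (c * B) ^ 2 * N * (1 + 2 * ρ ^ 2) := by
    have e1 : ∀ G, X G ^ 2 = ∑ K ∈ P, ∑ K' ∈ P,
        (if ∀ e ∈ prs K ∪ prs K', G e = true then (1 : ℝ) else 0) := by
      intro G
      rw [pow_two]
      show (∑ K ∈ P, I K G) * (∑ K ∈ P, I K G) = _
      rw [Finset.sum_mul_sum]
      refine Finset.sum_congr rfl fun K _ => Finset.sum_congr rfl fun K' _ => ?_
      show (if ∀ e ∈ prs K, G e = true then (1 : ℝ) else 0) *
        (if ∀ e ∈ prs K', G e = true then (1 : ℝ) else 0) = _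
      have hiff : (∀ e ∈ prs K ∪ prs K', G e = true) ↔
          (∀ e ∈ prs K, G e = true) ∧ (∀ e ∈ prs K', G e = true) := by
        constructor
        · intro h
          exact ⟨fun e he => h e (mem_union_left _ he), fun e he => h e (mem_union_right _ he)⟩
        · rintro ⟨h, h'⟩ e he
          rcases mem_union.1 he with h1 | h1
          · exact h e h1
          · exact h' e h1
      by_cases hA : ∀ e ∈ prs K, G e = true
      · by_cases hA' : ∀ e ∈ prs K', G e = true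
        · rw [if_pos hA, if_pos hA', if_pos (hiff.2 ⟨hA, hA'⟩), mul_one]
        · rw [if_neg hA', if_neg (fun h => hA' (hiff.1 h).2), mul_zero]
      · rw [if_neg hA, if_neg (fun h => hA (hiff.1 h).1), zero_mul]
    rw [Finset.sum_congr rfl fun G _ => e1 G, Finset.sum_comm]
    have e2 : ∀ K ∈ P, ∑ G : Sym2 (Fin m) → Bool, ∑ K' ∈ P,
        (if ∀ e ∈ prs K ∪ prs K', G e = true then (1 : ℝ) else 0) ≤
          B ^ 2 * N * (c * (1 + 2 * ρ ^ 2)) := by
      intro K hK
      rw [Finset.sum_comm]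
      have e3 : ∀ K' ∈ P, ∑ G : Sym2 (Fin m) → Bool,
          (if ∀ e ∈ prs K ∪ prs K', G e = true then (1 : ℝ) else 0) =
            B ^ 2 * N * (2 : ℝ) ^ ((K ∩ K').card.choose 2) := by
        intro K' hK'
        rw [Finset.sum_boole, clq_count, ← hN]
        have h2 := clq_card_union K K'
        rw [hPc K hK, hPc K' hK'] at h2
        have h3 : (1 / 2 : ℝ) ^ (prs K ∪ prs K').card *
            (1 / 2 : ℝ) ^ ((K ∩ K').card.choose 2) = B ^ 2 := by
          rw [← pow_add, h2, hB, pow_add, pow_two]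
        have h4 : (1 / 2 : ℝ) ^ ((K ∩ K').card.choose 2) *
            (2 : ℝ) ^ ((K ∩ K').card.choose 2) = 1 := by
          rw [← mul_pow]
          norm_num
        calc (1 / 2 : ℝ) ^ (prs K ∪ prs K').card * N
            = ((1 / 2 : ℝ) ^ (prs K ∪ prs K').card * ((1 / 2 : ℝ) ^ ((K ∩ K').card.choose 2) *
                (2 : ℝ) ^ ((K ∩ K').card.choose 2))) * N := by rw [h4, mul_one]
          _ = ((1 / 2 : ℝ) ^ (prs K ∪ prs K').card * (1 / 2 : ℝ) ^ ((K ∩ K').card.choose 2)) * N *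
                (2 : ℝ) ^ ((K ∩ K').card.choose 2) := by ring
          _ = _ := by rw [h3]
      rw [Finset.sum_congr rfl e3, ← Finset.mul_sum]
      have h5 := clq_fixed hkm hm h1 hρ K (hPc K hK)
      rw [← hP, ← hc] at h5
      have h6 : 0 ≤ B ^ 2 * N := by positivity
      exact mul_le_mul_of_nonneg_left h5 h6
    refine (Finset.sum_le_sum e2).trans (le_of_eq ?_)
    rw [Finset.sum_const, nsmul_eq_mul, hP, card_powersetCard, card_univ, Fintype.card_fin, ← hc]
    ring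
  obtain ⟨S, hS⟩ : ∃ S : Finset (Sym2 (Fin m) → Bool), S =
      (univ.filter fun G : Sym2 (Fin m) → Bool =>
        ∃ K : Finset (Fin m), K.card = k ∧ ∀ e ∈ prs K, G e = true) := ⟨_, rfl⟩
  have hXS : ∑ G, X G = ∑ G ∈ S, X G := by
    symm
    refine Finset.sum_subset (subset_univ _) fun G _ hG => ?_
    refine Finset.sum_eq_zero fun K hK => ?_
    show (if ∀ e ∈ prs K, G e = true then (1 : ℝ) else 0) = 0
    rw [if_neg]
    intro h
    apply hG
    rw [hS]
    exact mem_filter.2 ⟨mem_univ _, K, hPc K hK, h⟩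
  have hCS : (∑ G ∈ S, X G) ^ 2 ≤ S.card * ∑ G ∈ S, X G ^ 2 := sq_sum_le_card_mul_sum_sq
  have hle : ∑ G ∈ S, X G ^ 2 ≤ ∑ G, X G ^ 2 :=
    Finset.sum_le_sum_of_subset_of_nonneg (subset_univ _) fun G _ _ => sq_nonneg _
  rw [← hXS, hX1] at hCS
  have hfin : (c * B * N) ^ 2 ≤ S.card * ((c * B) ^ 2 * N * (1 + 2 * ρ ^ 2)) :=
    hCS.trans (mul_le_mul_of_nonneg_left (hle.trans hX2) (Nat.cast_nonneg _))
  have hcB : 0 < (c * B) ^ 2 * N := by positivity
  have hN2 : N ≤ S.card * (1 + 2 * ρ ^ 2) := by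
    have : (c * B) ^ 2 * N * N ≤ (c * B) ^ 2 * N * (S.card * (1 + 2 * ρ ^ 2)) := by
      nlinarith
    exact le_of_mul_le_mul_left this hcB
  have hcq : cq m k = S.card / N := by
    unfold cq
    rw [hS, hN]
  rw [hcq, le_div_iff₀ hN0]
  have h7 : (0 : ℝ) < 1 + 2 * ρ ^ 2 := by positivity
  have h8 : N / (1 + 2 * ρ ^ 2) ≤ S.card := by
    rw [div_le_iff₀ h7]
    exact hN2
  refine le_trans ?_ h8
  rw [le_div_iff₀ h7]
  have h9 : (1 - 2 * ρ ^ 2) * (1 + 2 * ρ ^ 2) ≤ 1 := by nlinarith [sq_nonneg (ρ ^ 2)]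
  nlinarith

theorem clq_le_one (m k : ℕ) : cq m k ≤ 1 := by
  unfold cq
  refine div_le_one_of_le₀ ?_ (Nat.cast_nonneg _)
  have h1 := Finset.card_le_univ (univ.filter fun G : Sym2 (Fin m) → Bool =>
      ∃ K : Finset (Fin m), K.card = k ∧ ∀ e ∈ prs K, G e = true)
  exact_mod_cast h1

theorem stClq : StClq := by
  intro ε hε0 hε1
  -- the error term
  obtain ⟨ρ, hρ⟩ : ∃ ρ : ℕ → ℝ, ρ = fun m : ℕ =>
    4 * (Real.logb 2 (m : ℝ)) ^ 2 * (m : ℝ) ^ (-(ε / 2)) := ⟨_, rfl⟩
  have hlim : Tendsto ρ atTop (nhds 0) := by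
    have h1 := (isLittleO_log_rpow_atTop (show (0 : ℝ) < ε / 8 by linarith))
    have h2 : Tendsto (fun x : ℝ => Real.log x / x ^ (ε / 8)) atTop (nhds 0) :=
      h1.tendsto_div_nhds_zero
    have h3 : Tendsto (fun x : ℝ => x ^ (-(ε / 4))) atTop (nhds 0) :=
      tendsto_rpow_neg_atTop (by linarith)
    have h4 := ((h2.pow 2).mul h3).const_mul (4 / (Real.log 2) ^ 2)
    rw [zero_pow two_ne_zero, zero_mul, mul_zero] at h4
    have h5 := h4.comp (tendsto_natCast_atTop_atTop (R := ℝ))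
    rw [hρ]
    refine h5.congr' ?_
    filter_upwards [eventually_gt_atTop 0] with m hm
    have hm0 : (0 : ℝ) < m := by exact_mod_cast hm
    show 4 / Real.log 2 ^ 2 * ((Real.log (m : ℝ) / (m : ℝ) ^ (ε / 8)) ^ 2 * (m : ℝ) ^ (-(ε / 4))) =
      4 * (Real.log m / Real.log 2) ^ 2 * (m : ℝ) ^ (-(ε / 2))
    have e1 : (m : ℝ) ^ (-(ε / 2)) = ((m : ℝ) ^ (ε / 8))⁻¹ ^ 2 * (m : ℝ) ^ (-(ε / 4)) := by
      rw [← Real.rpow_neg hm0.le, ← Real.rpow_natCast, ← Real.rpow_mul hm0.le,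
        ← Real.rpow_add hm0]
      congr 1
      push_cast
      ring
    rw [e1]
    ring
  have hev : ∀ᶠ m : ℕ in atTop, ρ m < 1 / 2 := hlim.eventually (gt_mem_nhds (by norm_num))
  have hlow : Tendsto (fun m => 1 - 2 * ρ m ^ 2) atTop (nhds 1) := by
    have := (hlim.pow 2).const_mul 2 |>.const_sub 1
    simpa using this
  refine tendsto_of_tendsto_of_tendsto_of_le_of_le' hlow tendsto_const_nhds ?_
    (Eventually.of_forall fun m => clq_le_one _ _)
  filter_upwards [hev, eventually_ge_atTop 1] with m hm hm1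
  obtain ⟨k, hk⟩ : ∃ k : ℕ, k = ⌊(2 - ε) * Real.logb 2 m⌋₊ := ⟨_, rfl⟩
  rw [← hk]
  have hm0 : (0 : ℝ) < m := by exact_mod_cast hm1
  have hm1' : (1 : ℝ) ≤ m := by exact_mod_cast hm1
  have hlog : 0 ≤ Real.logb 2 (m : ℝ) := Real.logb_nonneg (by norm_num) hm1'
  have hk1 : (k : ℝ) ≤ (2 - ε) * Real.logb 2 m := by
    rw [hk]
    exact Nat.floor_le (by apply mul_nonneg _ hlog; linarith)
  have hk2 : (k : ℝ) ≤ 2 * Real.logb 2 m := by nlinarith
  have hs0 : (1 : ℝ) ≤ √2 := Real.one_le_sqrt.2 (by norm_num)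
  have hs : (√2 : ℝ) ^ k ≤ (m : ℝ) ^ (1 - ε / 2) := by
    calc (√2 : ℝ) ^ k = (√2 : ℝ) ^ (k : ℝ) := (Real.rpow_natCast _ _).symm
      _ ≤ (√2 : ℝ) ^ ((2 - ε) * Real.logb 2 m) := Real.rpow_le_rpow_of_exponent_le hs0 hk1
      _ = (m : ℝ) ^ (1 - ε / 2) := by
        rw [Real.sqrt_eq_rpow, ← Real.rpow_mul (by norm_num),
          show 1 / 2 * ((2 - ε) * Real.logb 2 (m : ℝ)) = Real.logb 2 (m : ℝ) * (1 - ε / 2) by ring,
          Real.rpow_mul (by norm_num), Real.rpow_logb (by norm_num) (by norm_num) hm0]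
  have hmain : (k : ℝ) ^ 2 * (√2 : ℝ) ^ k ≤ ρ m * m := by
    have h1 : (k : ℝ) ^ 2 ≤ (2 * Real.logb 2 m) ^ 2 := by gcongr
    have e1 : ρ m * m = (2 * Real.logb 2 m) ^ 2 * (m : ℝ) ^ (1 - ε / 2) := by
      have e2 : (m : ℝ) ^ (1 - ε / 2) = (m : ℝ) ^ (-(ε / 2)) * m := by
        rw [show (1 - ε / 2) = -(ε / 2) + 1 by ring, Real.rpow_add hm0, Real.rpow_one]
      rw [e2, hρ]
      ring
    rw [e1]
    gcongr
  have hkm : k ≤ m := by
    have h1 : (1 : ℝ) ≤ (√2 : ℝ) ^ k := one_le_pow₀ hs0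
    have h2 : (k : ℝ) ^ 2 ≤ (k : ℝ) ^ 2 * (√2 : ℝ) ^ k :=
      le_mul_of_one_le_right (by positivity) h1
    have h3 : ρ m * m ≤ 1 / 2 * m := by gcongr
    have h4 : (k : ℝ) ≤ (k : ℝ) ^ 2 := by
      exact_mod_cast Nat.le_self_pow two_ne_zero k
    have : (k : ℝ) ≤ m := by linarith
    exact_mod_cast this
  exact clq_main hkm hm1 hm.le hmain

end Y616CQ
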