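import Mathlib
import Pool.Agent.Y616.CQ.Stm
import Pool.Agent.Y616.CQ.Cnt0
import Pool.Agent.Y616.CQ.Sem

/-!
Project CL: the induced graph on the first neighbours is uniformly random.
-/

namespace Y616CQ

open Finset Filter MeasureTheory H761CQ

theorem stCnt : StCnt := by
  classical
  intro m M P
  have hfib : ∀ S : Finset (Fin M), m ≤ S.card →
      (univ.filter fun G : Sym2 (Fin (M + 1)) → Bool => nbr G = S ∧ P (ind m G)).card *
        2 ^ (M + Fintype.card (Sym2 (Fin m))) =
      (univ.filter fun g : Sym2 (Fin m) → Bool => P g).card *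
        2 ^ Fintype.card (Sym2 (Fin (M + 1))) := by
    intro S hS
    have hb : Function.Injective (Sym2.map (emb m S)) := Sym2.map.injective (emb_inj S hS)
    have ha : Function.Injective (fun j : Fin M => s((0 : Fin (M + 1)), j.succ)) := by
      intro i j hij
      simp only [Sym2.eq_iff] at hij
      rcases hij with ⟨_, h⟩ | ⟨h, _⟩
      · exact Fin.succ_injective _ h
      · exact absurd h.symm (Fin.succ_ne_zero _)
    have hab : ∀ (j : Fin M) (e : Sym2 (Fin m)),
        s((0 : Fin (M + 1)), j.succ) ≠ Sym2.map (emb m S) e := by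
      intro j e
      induction e using Sym2.ind with
      | _ x y =>
        intro h
        rw [Sym2.map_mk, Sym2.eq_iff] at h
        obtain ⟨i, _, hi⟩ := emb_mem S hS x
        obtain ⟨i', _, hi'⟩ := emb_mem S hS y
        rcases h with ⟨h, _⟩ | ⟨h, _⟩
        · simp only [hi] at h
          exact Fin.succ_ne_zero _ h.symm
        · simp only [hi'] at h
          exact Fin.succ_ne_zero _ h.symm
    have h := cnt2 (fun j : Fin M => s((0 : Fin (M + 1)), j.succ)) (Sym2.map (emb m S)) ha hb hab
      (fun j => decide (j ∈ S)) P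
    rw [Fintype.card_fin] at h
    have hset : ∀ G : Sym2 (Fin (M + 1)) → Bool, (nbr G = S ∧ P (ind m G)) ↔
          ((∀ x : Fin M, G s(0, x.succ) = decide (x ∈ S)) ∧
            P (fun y => G (Sym2.map (emb m S) y))) := by
     intro G
     have hiff : nbr G = S ↔ ∀ j : Fin M, G s(0, j.succ) = decide (j ∈ S) := by
       constructor
       · rintro rfl j
         simp only [nbr, mem_filter, mem_univ, true_and]
         cases G s(0, j.succ) <;> simp
       · intro hj
         ext j
         simp only [nbr, mem_filter, mem_univ, true_and]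
         rw [hj j]
         simp
     constructor
     · rintro ⟨h1, h2⟩
       refine ⟨hiff.mp h1, ?_⟩
       have : (fun y => G (Sym2.map (emb m S) y)) = ind m G := by
         unfold ind; rw [h1]
       rw [this]
       exact h2
     · rintro ⟨h1, h2⟩
       have h3 := hiff.mpr h1
       refine ⟨h3, ?_⟩
       have : (fun y => G (Sym2.map (emb m S) y)) = ind m G := by
         unfold ind; rw [h3]
       rw [← this]
       exact h2
    rw [← h]
    refine congrArg (· * 2 ^ (M + Fintype.card (Sym2 (Fin m)))) (congrArg Finset.card ?_)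
    ext G
    simp only [mem_filter, mem_univ, true_and]
    exact hset G
  have hsum : (univ.filter fun G : Sym2 (Fin (M + 1)) → Bool =>
      m ≤ (nbr G).card ∧ P (ind m G)).card =
      ∑ S ∈ univ.filter (fun S : Finset (Fin M) => m ≤ S.card),
        (univ.filter fun G : Sym2 (Fin (M + 1)) → Bool => nbr G = S ∧ P (ind m G)).card := by
    rw [card_eq_sum_card_fiberwise (f := fun G => nbr G)
      (t := univ.filter (fun S : Finset (Fin M) => m ≤ S.card))]
    · apply sum_congr rfl
      intro S hS
      congr 1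
      ext G
      simp only [mem_filter, mem_univ, true_and] at hS ⊢
      constructor
      · rintro ⟨⟨_, h2⟩, h3⟩
        exact ⟨h3, h2⟩
      · rintro ⟨h3, h2⟩
        exact ⟨⟨h3 ▸ hS, h2⟩, h3⟩
    · intro G hG
      simp only [coe_filter, mem_univ, true_and, Set.mem_setOf_eq] at hG ⊢
      exact hG.1
  have hmain : (univ.filter fun G : Sym2 (Fin (M + 1)) → Bool =>
      m ≤ (nbr G).card ∧ P (ind m G)).card * 2 ^ (M + Fintype.card (Sym2 (Fin m))) =
      (univ.filter fun S : Finset (Fin M) => m ≤ S.card).card *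
        ((univ.filter fun g : Sym2 (Fin m) → Bool => P g).card *
        2 ^ Fintype.card (Sym2 (Fin (M + 1)))) := by
    rw [hsum, sum_mul, card_eq_sum_ones, sum_mul]
    apply sum_congr rfl
    intro S hS
    rw [mem_filter] at hS
    rw [hfib S hS.2, one_mul]
  have h3 : (Fintype.card (Sym2 (Fin (M + 1)) → Bool) : ℝ) =
      2 ^ Fintype.card (Sym2 (Fin (M + 1))) := by simp
  have h4 : (Fintype.card (Sym2 (Fin m) → Bool) : ℝ) = 2 ^ Fintype.card (Sym2 (Fin m)) := by simp
  have hmain' : ((univ.filter fun G : Sym2 (Fin (M + 1)) → Bool =>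
      m ≤ (nbr G).card ∧ P (ind m G)).card : ℝ) * 2 ^ (M + Fintype.card (Sym2 (Fin m))) =
      ((univ.filter fun S : Finset (Fin M) => m ≤ S.card).card : ℝ) *
        (((univ.filter fun g : Sym2 (Fin m) → Bool => P g).card : ℝ) *
        2 ^ Fintype.card (Sym2 (Fin (M + 1)))) := by exact_mod_cast hmain
  have key : ∀ (x y z : ℝ) (a b c : ℕ), x * 2 ^ (a + b) = y * (z * 2 ^ c) →
      y / 2 ^ a * (z / 2 ^ b) = x / 2 ^ c := by
    intro x y z a b c h
    rw [pow_add] at h
    have ha : (2 : ℝ) ^ a ≠ 0 := by positivity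
    have hb : (2 : ℝ) ^ b ≠ 0 := by positivity
    have hc : (2 : ℝ) ^ c ≠ 0 := by positivity
    field_simp
    linarith
  have h5 := key _ _ _ _ _ _ hmain'
  rw [h3, h4]
  unfold bt
  exact h5

end Y616CQ
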