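import Mathlib
import Pool.Agent.H761R3.CQ.All
import Pool.Agent.Y616.CQ.Stm
import Pool.Agent.Y616.CQ.Emb

/-!
Project CL: the bound of `H761R3.CQ` for `N ^ (1 + η)` queries, with a polynomially small
probability. Adapted from `H761CQ.det_bound`.
-/

namespace Y616CQ

open Finset Filter MeasureTheory H761CQ

theorem stDet : StDet := by
  classical
  intro c hc
  set δ : ℝ := min 1 ((c - 3 / 2) / 2) with hδdef
  have hδ : 0 < δ := lt_min one_pos (by linarith)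
  have hδ1 : δ ≤ 1 := min_le_left _ _
  have hcδ : 3 / 2 + 2 * δ ≤ c := by
    have : δ ≤ (c - 3 / 2) / 2 := min_le_right _ _
    linarith
  obtain ⟨A, m1, hp⟩ := exists_par δ hδ hδ1
  have hA1' : 1 ≤ A := hp.hA
  have hA : (1:ℝ) ≤ A := by exact_mod_cast hA1'
  refine ⟨δ / 64, by positivity, by linarith, ?_⟩
  have hbig := ev_big hp
  have hlin : ∀ᶠ l : ℕ in atTop, (3 / 2 + 2 * δ) * (2 * A + 1) + 1 ≤ δ * (l:ℝ) := by
    have h2 : ∀ᶠ l : ℕ in atTop, ((3 / 2 + 2 * δ) * (2 * A + 1) + 1) / δ ≤ (l:ℝ) :=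
      tendsto_natCast_atTop_atTop.eventually (eventually_ge_atTop _)
    filter_upwards [h2] with l hl
    rw [div_le_iff₀ hδ] at hl
    linarith
  have hlin2 : ∀ᶠ l : ℕ in atTop, 1 ≤ δ / 64 * (l:ℝ) := by
    have h2 : ∀ᶠ l : ℕ in atTop, 1 / (δ / 64) ≤ (l:ℝ) :=
      tendsto_natCast_atTop_atTop.eventually (eventually_ge_atTop _)
    filter_upwards [h2] with l hl
    rw [div_le_iff₀ (by positivity)] at hl
    linarith
  have hall := hbig.and (hlin.and hlin2)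
  -- transfer to n
  have htend : Tendsto (fun n : ℕ => Nat.clog 2 n / (2 * A) + 1) atTop atTop := by
    apply tendsto_atTop_mono (f := fun n : ℕ => Nat.log 2 n / (2 * A))
    · intro n
      have h1 : Nat.log 2 n ≤ Nat.clog 2 n := Nat.log_le_clog 2 n
      have h2 : Nat.log 2 n / (2 * A) ≤ Nat.clog 2 n / (2 * A) := Nat.div_le_div_right h1
      omega
    · rw [tendsto_atTop]
      intro b
      filter_upwards [eventually_ge_atTop (2 ^ (2 * A * b))] with n hn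
      rw [Nat.le_div_iff_mul_le (by omega)]
      have : b * (2 * A) = 2 * A * b := by ring
      rw [this]
      exact Nat.le_log_of_pow_le (by norm_num) hn
  have hn := htend.eventually hall
  filter_upwards [hn, eventually_ge_atTop 2] with n hn hn2 q kk hq hkk A'
  obtain ⟨hb, hli, hli2⟩ := hn
  generalize hl : Nat.clog 2 n / (2 * A) + 1 = l at hb hli hli2
  obtain ⟨L, hL⟩ : ∃ L, L = 2 * A * l := ⟨_, rfl⟩
  have hLr : (L:ℝ) = 2 * A * l := by rw [hL]; push_cast; ring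
  have hl1000 : 1000 ≤ l := hb.e0
  have hlL : l ≤ L := by rw [hL]; nlinarith
  have hclog : Nat.clog 2 n ≤ L := by
    have h1 := Nat.lt_mul_div_succ (Nat.clog 2 n) (by omega : 0 < 2 * A)
    rw [hL, ← hl]
    exact h1.le
  have hclog2 : L ≤ Nat.clog 2 n + 2 * A := by
    have h1 := Nat.mul_div_le (Nat.clog 2 n) (2 * A)
    rw [hL, ← hl, mul_add, mul_one]
    omega
  have hnL : n ≤ 2 ^ L := (Nat.le_pow_clog (by norm_num) n).trans
    (Nat.pow_le_pow_right (by norm_num) hclog)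
  have hnpos : (0:ℝ) < n := by
    have : 0 < n := by omega
    exact_mod_cast this
  have hn1 : (1:ℝ) ≤ n := by
    have : 1 ≤ n := by omega
    exact_mod_cast this
  have hlogn : (L:ℝ) - (2 * A + 1) ≤ Real.logb 2 n := by
    have h1 : 2 ^ (Nat.clog 2 n - 1) < n := Nat.pow_pred_clog_lt_self (by norm_num) (by omega)
    have h2 : ((Nat.clog 2 n - 1 : ℕ) : ℝ) ≤ Real.logb 2 n := by
      rw [Real.le_logb_iff_rpow_le (by norm_num) hnpos, Real.rpow_natCast]
      exact_mod_cast h1.le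
    have h3 : ((Nat.clog 2 n : ℕ) : ℝ) ≤ ((Nat.clog 2 n - 1 : ℕ) : ℝ) + 1 := by
      have : Nat.clog 2 n ≤ Nat.clog 2 n - 1 + 1 := by omega
      exact_mod_cast this
    have h4 : (L:ℝ) ≤ (Nat.clog 2 n : ℕ) + 2 * A := by exact_mod_cast hclog2
    linarith
  have hlogn0 : 0 ≤ Real.logb 2 n := Real.logb_nonneg (by norm_num) hn1
  have hlL' : (l:ℝ) ≤ L := by exact_mod_cast hlL
  -- number of queries
  have hqB : q ≤ 2 ^ (2 * A * l + ⌊δ * (2 * A * l) / 32⌋₊) := by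
    have h1 : (q:ℝ) ≤ (2:ℝ) ^ ((L:ℝ) * (1 + δ / 64)) := by
      refine hq.trans ?_
      have h2 : (n:ℝ) ≤ (2:ℝ) ^ (L:ℝ) := by
        rw [Real.rpow_natCast]; exact_mod_cast hnL
      rw [Real.rpow_mul (by norm_num)]
      exact Real.rpow_le_rpow hnpos.le h2 (by positivity)
    have h2 : (L:ℝ) * (1 + δ / 64) ≤ ((L + ⌊δ * (2 * A * l) / 32⌋₊ : ℕ) : ℝ) := by
      push_cast
      have h3 : δ * (2 * A * l) / 32 - 1 ≤ (⌊δ * (2 * A * l) / 32⌋₊ : ℝ) :=
        (Nat.sub_one_lt_floor _).le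
      rw [← hLr] at h3 ⊢
      have h4 : δ / 64 * (l:ℝ) ≤ δ / 64 * L := mul_le_mul_of_nonneg_left hlL' (by positivity)
      linarith
    have h3 : (q:ℝ) ≤ (2:ℝ) ^ (L + ⌊δ * (2 * A * l) / 32⌋₊) := by
      rw [← Real.rpow_natCast]
      exact h1.trans (Real.rpow_le_rpow_of_exponent_le (by norm_num) h2)
    rw [← hL]
    exact_mod_cast h3
  set k := ⌈(3 / 2 + δ) * (2 * A * l)⌉₊ with hk
  have hk1 : (3 / 2 + δ) * (2 * A * l) ≤ (k:ℝ) := Nat.le_ceil _
  have hk' : (k:ℝ) < (3 / 2 + δ) * (2 * A * l) + 1 := Nat.ceil_lt_add_one (by positivity)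
  have hL1000 : (1000:ℝ) ≤ L := by
    have : 1000 ≤ L := hl1000.trans hlL
    exact_mod_cast this
  have hk2 : k ≤ 3 * (2 * A * l) := by
    have h1 : (k:ℝ) ≤ 3 * L := by
      rw [← hLr] at hk'
      nlinarith
    rw [← hL]
    exact_mod_cast h1
  have hprob := core_prob taskA1 taskA2 taskC taskD taskE4
    (taskStep taskE1 taskE2 taskE3 taskE4 taskE5 taskE6) taskK V444.taskV taskR hp hb A'
    (hL ▸ hnL) hqB hk1 hk2
  rw [← hL] at hprob
  have hkn : (k:ℝ) ≤ c * Real.logb 2 n := by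
    have h1 : (3 / 2 + 2 * δ) * ((L:ℝ) - (2 * A + 1)) ≤ c * Real.logb 2 n := by
      calc (3 / 2 + 2 * δ) * ((L:ℝ) - (2 * A + 1)) ≤ (3 / 2 + 2 * δ) * Real.logb 2 n :=
            mul_le_mul_of_nonneg_left hlogn (by positivity)
        _ ≤ c * Real.logb 2 n := mul_le_mul_of_nonneg_right hcδ hlogn0
    have h2 : δ * (l:ℝ) ≤ δ * L := mul_le_mul_of_nonneg_left hlL' hδ.le
    rw [← hLr] at hk'
    nlinarith
  have hkkk : k ≤ kk := by
    have := hkn.trans hkk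
    exact_mod_cast this
  have hcardpos : (0:ℝ) < Fintype.card (Sym2 (Fin n) → Bool) := by
    exact_mod_cast Fintype.card_pos
  refine (stEmb.2.1 n A' q q kk k le_rfl hkkk).trans ?_
  have h0 : pk A' q k ≤ 7 * (q + 1) * (1 / 2 : ℝ) ^ (3 * L) := by
    unfold pk
    rw [div_le_iff₀ hcardpos]
    refine le_trans ?_ hprob
    exact_mod_cast card_le_card (fun G hG => by
      rw [mem_filter] at hG ⊢
      exact hG)
  refine h0.trans ?_
  have hq2 : (q:ℝ) + 1 ≤ 2 * (n:ℝ) ^ (1 + δ / 64) := by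
    have h4 : (1:ℝ) ≤ (n:ℝ) ^ (1 + δ / 64) := Real.one_le_rpow hn1 (by positivity)
    linarith
  have h6 : (1 / 2 : ℝ) ^ (3 * L) ≤ (n:ℝ) ^ (-3 : ℝ) := by
    have h7 : ((n:ℝ)) ^ 3 ≤ 2 ^ (3 * L) := by
      rw [mul_comm, pow_mul]
      apply pow_le_pow_left₀ hnpos.le
      exact_mod_cast hnL
    rw [one_div_pow, Real.rpow_neg hnpos.le, one_div]
    apply inv_anti₀
    · have : (n:ℝ) ^ (3:ℝ) = (n:ℝ) ^ 3 := by
        rw [← Real.rpow_natCast]; norm_num
      rw [this]; positivity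
    · have : (n:ℝ) ^ (3:ℝ) = (n:ℝ) ^ 3 := by
        rw [← Real.rpow_natCast]; norm_num
      rw [this]; exact h7
  calc 7 * ((q:ℝ) + 1) * (1 / 2) ^ (3 * L) ≤ 7 * (2 * (n:ℝ) ^ (1 + δ / 64)) * (n:ℝ) ^ (-3 : ℝ) := by
        gcongr
    _ = 14 * ((n:ℝ) ^ (1 + δ / 64) * (n:ℝ) ^ (-3 : ℝ)) := by ring
    _ = 14 * (n:ℝ) ^ (δ / 64 - 2) := by
        rw [← Real.rpow_add hnpos]
        congr 2
        ring

end Y616CQ
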