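import Mathlib
import Pool.Agent.Y616.CQ.Stm2

/-!
Project CL: assembly of the final statement from its parts.
-/

namespace Y616CQ

open Finset Filter MeasureTheory H761CQ

theorem stStep_of (hS : StSem) (hC : StCnt) : StStep := by
  classical
  intro m M A
  obtain ⟨B, hB⟩ := hS m M A
  refine ⟨B, fun q k => ?_⟩
  have h := hC m M (fun G => Knows A q k G)
  have h1 : bt M m * pk A q k =
      ((univ.filter fun G : Sym2 (Fin (M + 1)) → Bool =>
        m ≤ (nbr G).card ∧ Knows A q k (ind m G)).card : ℝ) /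
        Fintype.card (Sym2 (Fin (M + 1)) → Bool) := by
    rw [← h]
    unfold pk
    congr!
  rw [h1]
  unfold pk
  apply div_le_div_of_nonneg_right _ (by positivity)
  have : (univ.filter fun G : Sym2 (Fin (M + 1)) → Bool =>
        m ≤ (nbr G).card ∧ Knows A q k (ind m G)) ⊆
      (univ.filter fun G : Sym2 (Fin (M + 1)) → Bool => Knows B (M + q) (k + 1) G) := by
    intro G hG
    rw [mem_filter] at hG ⊢
    exact ⟨mem_univ _, hB G q k hG.2.1 hG.2.2⟩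
  exact_mod_cast card_le_card this

lemma knows_of_finds {n : ℕ} (A : Alg n) (q : ℕ) (m : ℝ) (G : Sym2 (Fin n) → Bool)
    (h : Finds A q m G) : Knows A q ⌈m⌉₊ G := by
  obtain ⟨hG1, hG2⟩ := h
  have h1 : ⌈m⌉₊ ≤ (A.out (ans A G q)).card := Nat.ceil_le.mpr hG1
  obtain ⟨K, hKs, hKc⟩ := exists_subset_card_eq h1
  refine ⟨K, hKc, ?_⟩
  intro e he
  induction e using Sym2.ind with
  | _ x y =>
    simp only [prs, mem_filter, Finset.mk_mem_sym2_iff, Sym2.mk_isDiag_iff] at he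
    exact hG2 x (hKs he.1.1) y (hKs he.1.2) he.2

lemma succ_le_pk {n : ℕ} (A : Alg n) (q : ℕ) (m : ℝ) : succ A q m ≤ pk A q ⌈m⌉₊ := by
  classical
  unfold succ pk
  apply div_le_div_of_nonneg_right _ (by positivity)
  have : (univ.filter fun G : Sym2 (Fin n) → Bool => Finds A q m G) ⊆
      (univ.filter fun G : Sym2 (Fin n) → Bool => Knows A q ⌈m⌉₊ G) := by
    intro G hG
    rw [mem_filter] at hG ⊢
    exact ⟨mem_univ _, knows_of_finds A q m G hG.2⟩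
  exact_mod_cast card_le_card this

lemma pk_le_succ {n : ℕ} (A A' : Alg n) (q : ℕ) (m : ℝ)
    (h : ∀ (k : ℕ) (G : Sym2 (Fin n) → Bool), Knows A q k G → Finds A' q (k : ℝ) G) :
    pk A q ⌈m⌉₊ ≤ succ A' q m := by
  classical
  unfold succ pk
  apply div_le_div_of_nonneg_right _ (by positivity)
  have : (univ.filter fun G : Sym2 (Fin n) → Bool => Knows A q ⌈m⌉₊ G) ⊆
      (univ.filter fun G : Sym2 (Fin n) → Bool => Finds A' q m G) := by
    intro G hG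
    rw [mem_filter] at hG ⊢
    obtain ⟨h1, h2⟩ := h _ G hG.2
    exact ⟨mem_univ _, (Nat.le_ceil m).trans h1, h2⟩
  exact_mod_cast card_le_card this

lemma succ_nonneg {n : ℕ} (A : Alg n) (q : ℕ) (m : ℝ) : 0 ≤ succ A q m := by
  unfold succ; positivity

lemma min_eq_left' {θ : ℝ} (h : θ ≤ 1) : min (3 * θ / 2) (1 + θ / 2) = 3 * θ / 2 :=
  min_eq_left (by linarith)

lemma min_eq_right' {θ : ℝ} (h : 1 ≤ θ) : min (3 * θ / 2) (1 + θ / 2) = 1 + θ / 2 :=
  min_eq_right (by linarith)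

/-- the second part of the final statement -/
theorem part2 (hUp : StUp) (hUpS : StUpS) (θ c : ℝ) (hθ : 0 < θ)
    (hc : min (3 * θ / 2) (1 + θ / 2) < c) : ∃ η : ℝ, 0 < η ∧
    ∀ᶠ n : ℕ in atTop, ∀ q : ℕ, (q : ℝ) ≤ (n : ℝ) ^ (θ + η) →
      ∀ A : Alg n, succ A q (c * Real.logb 2 n) ≤ (n : ℝ) ^ (-min θ 1) := by
  rcases le_total θ 1 with h | h
  · rw [min_eq_left' h] at hc
    obtain ⟨η, hη, hev⟩ := hUpS θ c hθ h hc
    refine ⟨η, hη, ?_⟩
    filter_upwards [hev] with n hn q hq A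
    rw [min_eq_left h]
    exact (succ_le_pk A q _).trans (hn q _ hq (Nat.le_ceil _) A)
  · rw [min_eq_right' h] at hc
    obtain ⟨η, hη, hev⟩ := hUp θ c h hc
    refine ⟨η, hη, ?_⟩
    filter_upwards [hev] with n hn q hq A
    rw [min_eq_right h, Real.rpow_neg_one, ← one_div]
    exact (succ_le_pk A q _).trans (hn q _ hq (Nat.le_ceil _) A)

theorem part2' (hUp : StUp) (hUpS : StUpS) (θ c : ℝ) (hθ : 0 < θ)
    (hc : min (3 * θ / 2) (1 + θ / 2) < c) : ∃ η : ℝ, 0 < η ∧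
    ∀ᶠ n : ℕ in atTop, ∀ q : ℕ, (q : ℝ) ≤ (n : ℝ) ^ (θ + η) →
      ∀ (Ω : Type) [MeasurableSpace Ω] (μ : Measure Ω) [IsProbabilityMeasure μ] (A : Ω → Alg n),
        ∫⁻ ω, ENNReal.ofReal (succ (A ω) q (c * Real.logb 2 n)) ∂μ ≤
          ENNReal.ofReal ((n : ℝ) ^ (-min θ 1)) := by
  obtain ⟨η, hη, hev⟩ := part2 hUp hUpS θ c hθ hc
  refine ⟨η, hη, ?_⟩
  filter_upwards [hev] with n hn q hq Ω _ μ _ A
  calc ∫⁻ ω, ENNReal.ofReal (succ (A ω) q (c * Real.logb 2 n)) ∂μ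
      ≤ ∫⁻ _, ENNReal.ofReal ((n : ℝ) ^ (-min θ 1)) ∂μ :=
        lintegral_mono fun ω => ENNReal.ofReal_le_ofReal (hn q hq (A ω))
    _ = ENNReal.ofReal ((n : ℝ) ^ (-min θ 1)) := by simp

lemma ev_budget (θ η : ℝ) (hη : 0 < η) (C : ℕ) : ∀ᶠ n : ℕ in atTop,
    (C : ℝ) * (n : ℝ) ^ θ * (Real.logb 2 n) ^ C ≤ (n : ℝ) ^ (θ + η) := by
  have h1 := isLittleO_log_rpow_rpow_atTop (s := η) (C : ℝ) hη
  have hl2 : 0 < Real.log 2 := Real.log_pos (by norm_num)
  have hc : 0 < (Real.log 2) ^ C / ((C : ℝ) + 1) := by positivity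
  have h2 := tendsto_natCast_atTop_atTop (R := ℝ) |>.eventually (h1.bound hc)
  filter_upwards [h2, eventually_ge_atTop 1] with n hn hn1
  have hn1' : (1 : ℝ) ≤ n := by exact_mod_cast hn1
  have hn0 : (0 : ℝ) < n := by linarith
  have hlog : 0 ≤ Real.log n := Real.log_nonneg hn1'
  rw [Real.rpow_natCast, Real.norm_of_nonneg (by positivity), Real.norm_of_nonneg (by positivity)]
    at hn
  rw [Real.rpow_add hn0, Real.logb, div_pow]
  have h3 : (C : ℝ) * (Real.log n ^ C / Real.log 2 ^ C) ≤ (n : ℝ) ^ η := by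
    have h4 : Real.log n ^ C / Real.log 2 ^ C ≤ (n : ℝ) ^ η / ((C : ℝ) + 1) := by
      rw [div_le_div_iff₀ (by positivity) (by positivity)]
      have := mul_le_mul_of_nonneg_right hn (by positivity : (0 : ℝ) ≤ (C : ℝ) + 1)
      calc Real.log n ^ C * ((C : ℝ) + 1) ≤
          Real.log 2 ^ C / ((C : ℝ) + 1) * (n : ℝ) ^ η * ((C : ℝ) + 1) := this
        _ = (n : ℝ) ^ η * Real.log 2 ^ C := by field_simp
    calc (C : ℝ) * (Real.log n ^ C / Real.log 2 ^ C) ≤ C * ((n : ℝ) ^ η / ((C : ℝ) + 1)) := by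
          gcongr
      _ = (n : ℝ) ^ η * (C / ((C : ℝ) + 1)) := by ring
      _ ≤ (n : ℝ) ^ η * 1 := by
          gcongr
          rw [div_le_one (by positivity)]
          linarith
      _ = (n : ℝ) ^ η := mul_one _
  calc (C : ℝ) * (n : ℝ) ^ θ * (Real.log n ^ C / Real.log 2 ^ C) =
      (n : ℝ) ^ θ * (C * (Real.log n ^ C / Real.log 2 ^ C)) := by ring
    _ ≤ (n : ℝ) ^ θ * (n : ℝ) ^ η := by gcongr

theorem upper (hUp : StUp) (hUpS : StUpS) (θ c : ℝ) (hθ : 0 < θ) (hc : AchievableAt θ c) :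
    c ≤ min (3 * θ / 2) (1 + θ / 2) := by
  by_contra hcon
  push Not at hcon
  obtain ⟨C, q, hq, Ω, mΩ, μ, hμ, A, hA⟩ := hc
  obtain ⟨η, hη, hev⟩ := part2' hUp hUpS θ c hθ hcon
  have hsh : Tendsto (fun n : ℕ => n + 1) atTop atTop := tendsto_add_atTop_nat 1
  have h1 := hsh.eventually (hev.and (ev_budget θ η hη C))
  have hsmall : Tendsto (fun n : ℕ => (n : ℝ) ^ (-min θ 1)) atTop (nhds 0) :=
    (tendsto_rpow_neg_atTop (lt_min hθ one_pos)).comp tendsto_natCast_atTop_atTop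
  have h3 : ∀ᶠ n : ℕ in atTop, (n : ℝ) ^ (-min θ 1) < 1 / 2 :=
    hsmall.eventually_lt_const (by norm_num)
  have h4 := hsh.eventually h3
  have h2 : ∀ᶠ n : ℕ in atTop, (ENNReal.ofReal (1 / 2)) <
      ∫⁻ ω, ENNReal.ofReal (succ (A n ω) (q n) (c * Real.logb 2 ((n + 1 : ℕ) : ℝ))) ∂(μ n) := by
    apply hA.eventually_const_lt
    rw [ENNReal.ofReal_lt_one]
    norm_num
  obtain ⟨n, ⟨hn1, hn1'⟩, hn2, hn4⟩ := (h1.and (h2.and h4)).exists
  have h5 := hn1 (q n) ((hq n).trans hn1') (Ω n) (μ n) (A n)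
  have h6 := hn2.trans_le h5
  rw [ENNReal.ofReal_lt_ofReal_iff_of_nonneg (by norm_num)] at h6
  linarith

lemma lower_aux (hOut : StOut) (θ c : ℝ)
    (h : ∃ (q : ℕ → ℕ) (A : ∀ n, Alg (n + 1)),
      (∀ᶠ n : ℕ in atTop, (q n : ℝ) ≤ 3 * ((n + 1 : ℕ) : ℝ) ^ θ) ∧
      Tendsto (fun n : ℕ => pk (A n) (q n) ⌈c * Real.logb 2 ((n + 1 : ℕ) : ℝ)⌉₊) atTop (nhds 1)) :
    AchievableAt θ c := by
  classical
  obtain ⟨q, A, hq, hT⟩ := h
  choose A' hA' using fun n => hOut (n + 1) (q n) (A n)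
  set q' : ℕ → ℕ := fun n =>
    if (q n : ℝ) ≤ 3 * ((n + 1 : ℕ) : ℝ) ^ θ ∧ 1 ≤ n then q n else 0 with hq'
  refine ⟨3, q', ?_, fun _ => Unit, fun _ => inferInstance, fun _ => Measure.dirac (),
    fun _ => inferInstance, fun n _ => A' n, ?_⟩
  · intro n
    have hb : (0 : ℝ) ≤ Real.logb 2 ((n + 1 : ℕ) : ℝ) :=
      Real.logb_nonneg (by norm_num) (by push_cast; linarith [Nat.cast_nonneg (α := ℝ) n])
    by_cases hn : (q n : ℝ) ≤ 3 * ((n + 1 : ℕ) : ℝ) ^ θ ∧ 1 ≤ n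
    · simp only [hq', if_pos hn]
      refine hn.1.trans ?_
      have h1 : (1 : ℝ) ≤ Real.logb 2 ((n + 1 : ℕ) : ℝ) := by
        rw [Real.le_logb_iff_rpow_le (by norm_num) (by positivity), Real.rpow_one]
        have : (1 : ℝ) ≤ n := by exact_mod_cast hn.2
        push_cast
        linarith
      have h2 : (1 : ℝ) ≤ (Real.logb 2 ((n + 1 : ℕ) : ℝ)) ^ 3 := one_le_pow₀ h1
      have h3 : (0 : ℝ) ≤ 3 * ((n + 1 : ℕ) : ℝ) ^ θ := by positivity
      calc 3 * ((n + 1 : ℕ) : ℝ) ^ θ = 3 * ((n + 1 : ℕ) : ℝ) ^ θ * 1 := (mul_one _).symm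
        _ ≤ 3 * ((n + 1 : ℕ) : ℝ) ^ θ * (Real.logb 2 ((n + 1 : ℕ) : ℝ)) ^ 3 := by gcongr
        _ = _ := by norm_num
    · simp only [hq', if_neg hn]
      simp only [Nat.cast_zero]
      positivity
  · have hle : ∀ᶠ n : ℕ in atTop, pk (A n) (q n) ⌈c * Real.logb 2 ((n + 1 : ℕ) : ℝ)⌉₊ ≤
        succ (A' n) (q' n) (c * Real.logb 2 ((n + 1 : ℕ) : ℝ)) := by
      filter_upwards [hq, eventually_ge_atTop 1] with n hn hn1
      have : q' n = q n := by simp only [hq', if_pos (And.intro hn hn1)]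
      rw [this]
      exact pk_le_succ (A n) (A' n) (q n) _ (hA' n)
    have hle1 : ∀ n : ℕ, succ (A' n) (q' n) (c * Real.logb 2 ((n + 1 : ℕ) : ℝ)) ≤ 1 := by
      intro n
      unfold succ
      rw [div_le_one (by exact_mod_cast Fintype.card_pos)]
      exact_mod_cast (card_le_univ _)
    have hT2 : Tendsto (fun n : ℕ => succ (A' n) (q' n) (c * Real.logb 2 ((n + 1 : ℕ) : ℝ)))
        atTop (nhds 1) :=
      tendsto_of_tendsto_of_tendsto_of_le_of_le' hT tendsto_const_nhds hle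
        (Eventually.of_forall hle1)
    have hT3 := (ENNReal.continuous_ofReal.tendsto 1).comp hT2
    simp only [ENNReal.ofReal_one] at hT3
    refine hT3.congr fun n => ?_
    simp

theorem main_of (hUp : StUp) (hUpS : StUpS) (hLow : StLow) (hLowS : StLowS) (hOut : StOut) :
    StMain := by
  refine ⟨fun θ hθ hθ2 => ⟨fun c hc => upper hUp hUpS θ c hθ hc, fun b hb => ?_⟩,
    fun θ c hθ hc => part2' hUp hUpS θ c hθ hc⟩
  refine le_of_forall_lt fun c hc => ?_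
  have hcb : ∀ c' : ℝ, c' < min (3 * θ / 2) (1 + θ / 2) → c' ≤ b := by
    intro c' hc'
    apply hb
    apply lower_aux hOut
    rcases le_total θ 1 with h | h
    · exact hLowS θ c' hθ h (by rwa [min_eq_left' h] at hc')
    · exact hLow θ c' h hθ2 (by rwa [min_eq_right' h] at hc')
  obtain ⟨d, hd1, hd2⟩ := exists_between hc
  exact hd1.trans_le (hcb d hd2)

end Y616CQ
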