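import Mathlib
import Pool.Agent.Y616.CQ.Stm

/-!
Project CL: iterating the greedy step.
-/

namespace Y616CQ

open Finset Filter MeasureTheory H761CQ

theorem itU_aux (hS : StStep) (hB : StBin) (hE : StEmb) (n : ℕ) (A : Alg n) :
    ∀ (g N : ℕ), N + 1 = 2 ^ g * (n + 1) → ∃ B : Alg N,
      ∀ q k : ℕ, pk A q k ≤ 2 ^ g * pk B (q + 2 ^ (g + 1) * (n + 1)) (k + g) := by
  intro g
  induction g with
  | zero =>
    intro N hN
    have : N = n := by omega
    subst this
    refine ⟨A, fun q k => ?_⟩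
    rw [pow_zero, one_mul, add_zero]
    exact hE.2.1 _ A q _ k k (by omega) le_rfl
  | succ g ih =>
    intro N hN
    obtain ⟨N₀, hN₀⟩ : ∃ N₀, N₀ + 1 = 2 ^ g * (n + 1) := ⟨2 ^ g * (n + 1) - 1, by
      have : 1 ≤ 2 ^ g * (n + 1) := Nat.mul_pos (by positivity) (by omega)
      omega⟩
    obtain ⟨B, hBB⟩ := ih N₀ hN₀
    have hN2 : N = 2 * N₀ + 1 := by
      have : 2 ^ (g + 1) * (n + 1) = 2 * (2 ^ g * (n + 1)) := by ring
      omega
    subst hN2
    obtain ⟨B', hB'⟩ := hS N₀ (2 * N₀) B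
    refine ⟨B', fun q k => ?_⟩
    have h1 := hBB q k
    have h2 := hB' (q + 2 ^ (g + 1) * (n + 1)) (k + g)
    have h3 := hB.1 N₀
    have h4 := (hE.2.2 N₀ B (q + 2 ^ (g + 1) * (n + 1)) (k + g)).1
    have h5 : pk B (q + 2 ^ (g + 1) * (n + 1)) (k + g) ≤
        2 * pk B' (2 * N₀ + (q + 2 ^ (g + 1) * (n + 1))) (k + g + 1) := by
      have := mul_le_mul_of_nonneg_right h3 h4
      linarith
    have h6 : pk B' (2 * N₀ + (q + 2 ^ (g + 1) * (n + 1))) (k + g + 1) ≤
        pk B' (q + 2 ^ (g + 1 + 1) * (n + 1)) (k + (g + 1)) := by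
      apply hE.2.1
      · have : 2 ^ (g + 1 + 1) * (n + 1) = 2 * (2 ^ g * (n + 1)) + 2 ^ (g + 1) * (n + 1) := by ring
        omega
      · omega
    have h7 : (0 : ℝ) ≤ 2 ^ g := by positivity
    calc pk A q k ≤ 2 ^ g * pk B (q + 2 ^ (g + 1) * (n + 1)) (k + g) := h1
      _ ≤ 2 ^ g * (2 * pk B' (q + 2 ^ (g + 1 + 1) * (n + 1)) (k + (g + 1))) :=
          mul_le_mul_of_nonneg_left (by linarith) h7
      _ = _ := by ring

theorem stItU_of (hS : StStep) (hB : StBin) (hE : StEmb) : StItU := by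
  intro g n A
  apply itU_aux hS hB hE n A g
  have : 1 ≤ 2 ^ g * (n + 1) := Nat.mul_pos (by positivity) (by omega)
  omega

lemma sq_ge (r m : ℕ) : ∀ i, 2 ^ i * m ≤ sq r m i
  | 0 => by simp [sq]
  | i + 1 => by
    have := sq_ge r m i
    simp only [sq]
    rw [pow_succ]
    nlinarith [Nat.zero_le (sq r m i / r)]

lemma sq_double (r m i : ℕ) : 2 * sq r m i ≤ sq r m (i + 1) := by
  simp only [sq]
  have := Nat.zero_le (sq r m i / r)
  omega

lemma sum_sq (r m : ℕ) : ∀ g, ∑ i ∈ range g, sq r m (i + 1) ≤ 2 * sq r m g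
  | 0 => by simp
  | g + 1 => by
    rw [sum_range_succ]
    have h1 := sum_sq r m g
    have h2 := sq_double r m g
    omega

theorem itL_aux (hS : StStep) (hB : StBin) (hE : StEmb) (r m : ℕ) (A : Alg m) (hr : 1 ≤ r)
    (hm : 2 * r ≤ m) : ∀ g : ℕ, ∃ B : Alg (sq r m g), ∀ q k : ℕ,
      (1 - (2 * r + 1 : ℝ) ^ 2 * ∑ i ∈ range g, 1 / (sq r m i : ℝ)) * pk A q k ≤
        pk B (q + ∑ i ∈ range g, sq r m (i + 1)) (k + g) := by
  intro g
  induction g with
  | zero => exact ⟨A, fun q k => by simp only [range_zero, sum_empty, mul_zero, sub_zero, one_mul, add_zero]; exact le_refl (pk A q k)⟩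
  | succ g ih =>
    obtain ⟨B, hBB⟩ := ih
    have hsg : m ≤ sq r m g := by
      have h1 := sq_ge r m g
      have h2 : 1 ≤ 2 ^ g := Nat.one_le_two_pow
      nlinarith
    have hs1 : 1 ≤ sq r m g := by omega
    obtain ⟨M, hM⟩ : ∃ M, M = 2 * sq r m g + sq r m g / r + 1 := ⟨_, rfl⟩
    have hM1 : sq r m (g + 1) = M + 1 := by simp only [sq]; omega
    obtain ⟨B', hB'⟩ := hS (sq r m g) M B
    have hrM : (2 * r + 1) * sq r m g ≤ r * M := by
      rw [hM]
      have h1 := Nat.div_add_mod (sq r m g) r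
      have h2 := Nat.mod_lt (sq r m g) (by omega : 0 < r)
      nlinarith
    have hbt := hB.2 r (sq r m g) M hr hs1 hrM
    rw [hM1]
    refine ⟨B', fun q k => ?_⟩
    have hq : M + (q + ∑ i ∈ range g, sq r m (i + 1)) ≤ q + ∑ i ∈ range (g + 1), sq r m (i + 1) := by
      rw [sum_range_succ, hM1]
      omega
    have h1 := hBB q k
    have h2 := hB' (q + ∑ i ∈ range g, sq r m (i + 1)) (k + g)
    have h3 : pk B' (M + (q + ∑ i ∈ range g, sq r m (i + 1))) (k + g + 1) ≤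
        pk B' (q + ∑ i ∈ range (g + 1), sq r m (i + 1)) (k + (g + 1)) :=
      hE.2.1 _ B' _ _ _ _ hq (by omega)
    have hA0 := (hE.2.2 m A q k).1
    have hB0 := (hE.2.2 _ B (q + ∑ i ∈ range g, sq r m (i + 1)) (k + g)).1
    have hB'0 := (hE.2.2 _ B' (q + ∑ i ∈ range (g + 1), sq r m (i + 1)) (k + (g + 1))).1
    set a : ℝ := (2 * r + 1 : ℝ) ^ 2 with ha
    have ha0 : 0 ≤ a := by positivity
    set T₀ : ℝ := ∑ i ∈ range g, 1 / (sq r m i : ℝ) with hT
    have hT0 : 0 ≤ T₀ := sum_nonneg fun i _ => by positivity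
    have hpos : (0 : ℝ) ≤ a / (sq r m g : ℝ) := by positivity
    rw [sum_range_succ, ← hT]
    by_cases hneg : 1 - a * (T₀ + 1 / (sq r m g : ℝ)) ≤ 0
    · exact (mul_nonpos_of_nonpos_of_nonneg hneg hA0).trans hB'0
    · push Not at hneg
      have h4 : a * (T₀ + 1 / (sq r m g : ℝ)) = a * T₀ + a / (sq r m g : ℝ) := by ring
      rw [h4] at hneg ⊢
      have h5 : 0 ≤ a * T₀ := mul_nonneg ha0 hT0
      have h6 : 0 ≤ 1 - a / (sq r m g : ℝ) := by linarith
      calc (1 - (a * T₀ + a / (sq r m g : ℝ))) * pk A q k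
          ≤ ((1 - a / (sq r m g : ℝ)) * (1 - a * T₀)) * pk A q k := by
            apply mul_le_mul_of_nonneg_right _ hA0
            nlinarith
        _ = (1 - a / (sq r m g : ℝ)) * ((1 - a * T₀) * pk A q k) := by ring
        _ ≤ (1 - a / (sq r m g : ℝ)) * pk B (q + ∑ i ∈ range g, sq r m (i + 1)) (k + g) :=
            mul_le_mul_of_nonneg_left h1 h6
        _ ≤ bt M (sq r m g) * pk B (q + ∑ i ∈ range g, sq r m (i + 1)) (k + g) :=
            mul_le_mul_of_nonneg_right hbt hB0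
        _ ≤ _ := h2.trans h3

theorem stItL_of (hS : StStep) (hB : StBin) (hE : StEmb) : StItL := by
  intro r m g A hr hm
  have hm1 : 1 ≤ m := by omega
  have hm0 : (0 : ℝ) < m := by exact_mod_cast hm1
  have hr0 : (0 : ℝ) < r := by exact_mod_cast hr
  constructor
  · induction g with
    | zero => simp [sq]
    | succ g ih =>
      have hsg : m ≤ sq r m g := by
        have h1 := sq_ge r m g
        have h2 : 1 ≤ 2 ^ g := Nat.one_le_two_pow
        nlinarith
      have h1 : ((sq r m g / r : ℕ) : ℝ) ≤ (sq r m g : ℝ) / r := Nat.cast_div_le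
      have h2 : (2 : ℝ) ≤ (sq r m g : ℝ) / r := by
        rw [le_div_iff₀ hr0]
        exact_mod_cast hm.trans hsg
      have h3 : (sq r m (g + 1) : ℝ) ≤ (2 + 2 / (r : ℝ)) * sq r m g := by
        simp only [sq]
        push_cast
        have : (2 + 2 / (r : ℝ)) * sq r m g = 2 * sq r m g + (sq r m g : ℝ) / r +
          (sq r m g : ℝ) / r := by ring
        rw [this]
        linarith
      calc (sq r m (g + 1) : ℝ) ≤ (2 + 2 / (r : ℝ)) * sq r m g := h3
        _ ≤ (2 + 2 / (r : ℝ)) * ((2 + 2 / (r : ℝ)) ^ g * m) := by gcongr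
        _ = _ := by ring
  · obtain ⟨B, hBB⟩ := itL_aux hS hB hE r m A hr hm g
    refine ⟨B, fun q k => ?_⟩
    have hA0 := (hE.2.2 m A q k).1
    have hsum : ∑ i ∈ range g, 1 / (sq r m i : ℝ) ≤ 2 / m := by
      have h1 : ∀ i ∈ range g, 1 / (sq r m i : ℝ) ≤ (1 / 2 : ℝ) ^ i * (1 / m) := by
        intro i _
        have h2 : ((2 ^ i * m : ℕ) : ℝ) ≤ sq r m i := by exact_mod_cast sq_ge r m i
        push_cast at h2
        calc 1 / (sq r m i : ℝ) ≤ 1 / (2 ^ i * m) := by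
              apply one_div_le_one_div_of_le (by positivity) h2
          _ = (1 / 2 : ℝ) ^ i * (1 / m) := by
              rw [one_div_pow]; field_simp
      calc ∑ i ∈ range g, 1 / (sq r m i : ℝ) ≤ ∑ i ∈ range g, (1 / 2 : ℝ) ^ i * (1 / m) :=
            sum_le_sum h1
        _ = (∑ i ∈ range g, (1 / 2 : ℝ) ^ i) * (1 / m) := by rw [sum_mul]
        _ ≤ 2 * (1 / m) := by
            apply mul_le_mul_of_nonneg_right _ (by positivity)
            rw [geom_sum_eq (by norm_num)]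
            have : (0 : ℝ) < (1 / 2) ^ g := by positivity
            rw [div_le_iff_of_neg (by norm_num)]
            linarith
        _ = 2 / m := by ring
    have h1 : (1 - 2 * (2 * r + 1 : ℝ) ^ 2 / m) * pk A q k ≤
        (1 - (2 * r + 1 : ℝ) ^ 2 * ∑ i ∈ range g, 1 / (sq r m i : ℝ)) * pk A q k := by
      apply mul_le_mul_of_nonneg_right _ hA0
      have : (2 * r + 1 : ℝ) ^ 2 * ∑ i ∈ range g, 1 / (sq r m i : ℝ) ≤
          (2 * r + 1 : ℝ) ^ 2 * (2 / m) := by gcongr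
      have h2 : 2 * (2 * r + 1 : ℝ) ^ 2 / m = (2 * r + 1 : ℝ) ^ 2 * (2 / m) := by ring
      rw [h2]
      linarith
    refine h1.trans ((hBB q k).trans ?_)
    exact hE.2.1 _ B _ _ _ _ (by have := sum_sq r m g; omega) le_rfl

end Y616CQ
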