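import Mathlib
import Pool.Agent.Y616.CQ.Stm

/-!
Project CL: the lower bound for the exponents between one and two.
-/

namespace Y616CQ

open Finset Filter MeasureTheory H761CQ

lemma base_le {ε : ℝ} (hε : 0 < ε) {r : ℕ} (hr : 4 / ε ≤ r) :
    2 + 2 / (r : ℝ) ≤ (2 : ℝ) ^ (1 + ε / 2) := by
  have hr0 : (0 : ℝ) < r := lt_of_lt_of_le (by positivity) hr
  have h1 : 1 / (r : ℝ) ≤ ε / 4 := by
    rw [div_le_iff₀ hε] at hr
    rw [div_le_div_iff₀ hr0 (by norm_num)]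
    linarith
  have h2 : 1 + 1 / (r : ℝ) ≤ (2 : ℝ) ^ (ε / 2) := by
    rw [Real.rpow_def_of_pos (by norm_num)]
    have h3 : ε / 4 ≤ Real.log 2 * (ε / 2) := by
      have := Real.log_two_gt_d9
      nlinarith
    have h4 := Real.add_one_le_exp (1 / (r : ℝ))
    have h5 : Real.exp (1 / (r : ℝ)) ≤ Real.exp (Real.log 2 * (ε / 2)) :=
      Real.exp_le_exp.mpr (h1.trans h3)
    linarith
  rw [Real.rpow_add (by norm_num), Real.rpow_one]
  have : 2 + 2 / (r : ℝ) = 2 * (1 + 1 / (r : ℝ)) := by ring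
  rw [this]
  exact mul_le_mul_of_nonneg_left h2 (by norm_num)

lemma two_rpow_logb {x : ℝ} (hx : 0 < x) (a : ℝ) : (2 : ℝ) ^ (a * Real.logb 2 x) = x ^ a := by
  rw [mul_comm, Real.rpow_mul (by norm_num), Real.rpow_logb (by norm_num) (by norm_num) hx]

/-- the size of the whole algorithm -/
lemma size_le {θ ε x : ℝ} (hθ : 1 ≤ θ) (hε : 0 < ε) (hε1 : ε ≤ 1 / 4) (hx : 1 ≤ x)
    {r m g s : ℕ} (hr : 4 / ε ≤ r) (hm : (m : ℝ) ≤ x ^ (θ / 2 - ε))
    (hg : (g : ℝ) ≤ (1 - θ / 2 + ε / 2) * Real.logb 2 x)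
    (hs : (s : ℝ) ≤ (2 + 2 / (r : ℝ)) ^ g * m) : (s : ℝ) ≤ x := by
  have hx0 : 0 < x := by linarith
  have hl : 0 ≤ Real.logb 2 x := Real.logb_nonneg (by norm_num) hx
  have h1 : (2 + 2 / (r : ℝ)) ^ g ≤ x ^ ((1 + ε / 2) * (1 - θ / 2 + ε / 2)) := by
    calc (2 + 2 / (r : ℝ)) ^ g ≤ ((2 : ℝ) ^ (1 + ε / 2)) ^ g :=
          pow_le_pow_left₀ (by positivity) (base_le hε hr) g
      _ = (2 : ℝ) ^ ((1 + ε / 2) * g) := by
          rw [← Real.rpow_natCast, ← Real.rpow_mul (by norm_num)]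
      _ ≤ (2 : ℝ) ^ ((1 + ε / 2) * ((1 - θ / 2 + ε / 2) * Real.logb 2 x)) := by
          apply Real.rpow_le_rpow_of_exponent_le (by norm_num)
          apply mul_le_mul_of_nonneg_left hg (by positivity)
      _ = x ^ ((1 + ε / 2) * (1 - θ / 2 + ε / 2)) := by
          rw [← mul_assoc, two_rpow_logb hx0]
  calc (s : ℝ) ≤ (2 + 2 / (r : ℝ)) ^ g * m := hs
    _ ≤ x ^ ((1 + ε / 2) * (1 - θ / 2 + ε / 2)) * x ^ (θ / 2 - ε) := by
        apply mul_le_mul h1 hm (by positivity) (by positivity)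
    _ = x ^ ((1 + ε / 2) * (1 - θ / 2 + ε / 2) + (θ / 2 - ε)) := by
        rw [Real.rpow_add hx0]
    _ ≤ x ^ (1 : ℝ) := by
        apply Real.rpow_le_rpow_of_exponent_le hx
        nlinarith
    _ = x := Real.rpow_one x

lemma logb_floor {y : ℝ} (hy : 2 ≤ y) : Real.logb 2 y - 1 ≤ Real.logb 2 (⌊y⌋₊ : ℝ) := by
  have h1 : y / 2 ≤ (⌊y⌋₊ : ℝ) := by
    have := Nat.sub_one_lt_floor y
    linarith
  have h2 : Real.logb 2 (y / 2) ≤ Real.logb 2 (⌊y⌋₊ : ℝ) :=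
    Real.logb_le_logb_of_le (by norm_num) (by linarith) h1
  rw [Real.logb_div (by linarith) (by norm_num), Real.logb_self_eq_one (by norm_num)] at h2
  exact h2

theorem stLow_of (hC : StClq) (hI : StItL) (hE : StEmb) (hA : StAll) : StLow := by
  classical
  intro θ c hθ hθ2 hc
  obtain ⟨ε, hεdef⟩ : ∃ ε : ℝ, ε = min (1 / 4) ((1 + θ / 2 - c) / 5) := ⟨_, rfl⟩
  have hε : 0 < ε := by rw [hεdef]; exact lt_min (by norm_num) (by linarith)
  have hε1 : ε ≤ 1 / 4 := by rw [hεdef]; exact min_le_left _ _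
  have hεc : 5 * ε ≤ 1 + θ / 2 - c := by
    have : ε ≤ (1 + θ / 2 - c) / 5 := by rw [hεdef]; exact min_le_right _ _
    linarith
  obtain ⟨r, hr⟩ := exists_nat_ge (4 / ε)
  have hr1 : 1 ≤ r := by
    have h1 : (0 : ℝ) < r := lt_of_lt_of_le (by positivity) hr
    exact_mod_cast h1
  set y : ℕ → ℝ := fun n => ((n + 1 : ℕ) : ℝ) ^ (θ / 2 - ε) with hy
  set m : ℕ → ℕ := fun n => ⌊y n⌋₊ with hm
  set g : ℕ → ℕ := fun n => ⌊(1 - θ / 2 + ε / 2) * Real.logb 2 ((n + 1 : ℕ) : ℝ)⌋₊ with hg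
  set k0 : ℕ → ℕ := fun n => ⌊(2 - ε) * Real.logb 2 (m n)⌋₊ with hk0
  have hx1 : ∀ n : ℕ, (1 : ℝ) ≤ ((n + 1 : ℕ) : ℝ) := fun n => by
    push_cast; linarith [Nat.cast_nonneg (α := ℝ) n]
  have hlx : ∀ n : ℕ, 0 ≤ Real.logb 2 ((n + 1 : ℕ) : ℝ) := fun n =>
    Real.logb_nonneg (by norm_num) (hx1 n)
  have hex : ∀ n : ℕ, ∃ (q : ℕ) (A : Alg (n + 1)), 2 * r ≤ m n →
      (q : ℝ) ≤ 3 * ((n + 1 : ℕ) : ℝ) ^ θ ∧
      (1 - 2 * (2 * r + 1 : ℝ) ^ 2 / m n) * cq (m n) (k0 n) ≤ pk A q (k0 n + g n) := by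
    intro n
    by_cases hmn : 2 * r ≤ m n
    · obtain ⟨A₀, hA₀⟩ := hA (m n) (by omega)
      obtain ⟨hs, B, hB⟩ := hI r (m n) (g n) A₀ hr1 hmn
      have hmy : (m n : ℝ) ≤ ((n + 1 : ℕ) : ℝ) ^ (θ / 2 - ε) :=
        Nat.floor_le (by positivity)
      have hgn : (g n : ℝ) ≤ (1 - θ / 2 + ε / 2) * Real.logb 2 ((n + 1 : ℕ) : ℝ) :=
        Nat.floor_le (mul_nonneg (by linarith) (hlx n))
      have hsz := size_le hθ hε hε1 (hx1 n) hr hmy hgn hs
      have hsz' : sq r (m n) (g n) ≤ n + 1 := by exact_mod_cast hsz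
      obtain ⟨A, hAA⟩ := hE.1 _ _ hsz' B
      refine ⟨m n * m n + 2 * sq r (m n) (g n), A, fun _ => ⟨?_, ?_⟩⟩
      · push_cast
        have h1 : (m n : ℝ) * m n ≤ ((n + 1 : ℕ) : ℝ) ^ θ := by
          calc (m n : ℝ) * m n ≤ ((n + 1 : ℕ) : ℝ) ^ (θ / 2 - ε) * ((n + 1 : ℕ) : ℝ) ^ (θ / 2 - ε) :=
                mul_le_mul hmy hmy (by positivity) (by positivity)
            _ = ((n + 1 : ℕ) : ℝ) ^ ((θ / 2 - ε) + (θ / 2 - ε)) := by
                rw [Real.rpow_add (by linarith [hx1 n])]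
            _ ≤ ((n + 1 : ℕ) : ℝ) ^ θ := by
                apply Real.rpow_le_rpow_of_exponent_le (hx1 n)
                linarith
        have h2 : (sq r (m n) (g n) : ℝ) ≤ ((n + 1 : ℕ) : ℝ) ^ θ := by
          refine hsz.trans ?_
          calc ((n + 1 : ℕ) : ℝ) = ((n + 1 : ℕ) : ℝ) ^ (1 : ℝ) := (Real.rpow_one _).symm
            _ ≤ ((n + 1 : ℕ) : ℝ) ^ θ := Real.rpow_le_rpow_of_exponent_le (hx1 n) hθ
        push_cast at h1 h2 ⊢
        linarith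
      · rw [← hA₀ (k0 n)]
        exact (hB (m n * m n) (k0 n)).trans (hAA _ _)
    · exact ⟨0, ⟨fun _ => s(0, 0), fun _ => ∅⟩, fun h => absurd h hmn⟩
  choose q A hqA using hex
  have hxt : Tendsto (fun n : ℕ => ((n + 1 : ℕ) : ℝ)) atTop atTop :=
    tendsto_natCast_atTop_atTop.comp (tendsto_add_atTop_nat 1)
  have hyt : Tendsto y atTop atTop := (tendsto_rpow_atTop (by linarith)).comp hxt
  have hmt : Tendsto m atTop atTop := tendsto_nat_floor_atTop.comp hyt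
  have hlt : Tendsto (fun n : ℕ => Real.logb 2 ((n + 1 : ℕ) : ℝ)) atTop atTop :=
    (Real.tendsto_logb_atTop (by norm_num)).comp hxt
  refine ⟨q, A, ?_, ?_⟩
  · filter_upwards [hmt.eventually_ge_atTop (2 * r)] with n hn
    exact (hqA n hn).1
  · have h1 : Tendsto (fun n : ℕ => cq (m n) (k0 n)) atTop (nhds 1) :=
      (hC ε hε (by linarith)).comp hmt
    have h2 : Tendsto (fun n : ℕ => (1 - 2 * (2 * r + 1 : ℝ) ^ 2 / m n)) atTop (nhds (1 - 0)) := by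
      apply Tendsto.sub tendsto_const_nhds
      exact Tendsto.div_atTop tendsto_const_nhds (tendsto_natCast_atTop_atTop.comp hmt)
    have h3 := h2.mul h1
    rw [sub_zero, one_mul] at h3
    refine tendsto_of_tendsto_of_tendsto_of_le_of_le' h3 tendsto_const_nhds ?_
      (Eventually.of_forall fun n => (hE.2.2 _ _ _ _).2)
    filter_upwards [hmt.eventually_ge_atTop (2 * r), hyt.eventually_ge_atTop 2,
      hlt.eventually_ge_atTop (4 / (2 * ε))] with n hn hy2 hl4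
    refine (hqA n hn).2.trans (hE.2.1 _ _ _ _ _ _ le_rfl ?_)
    rw [Nat.ceil_le]
    push_cast
    set lx : ℝ := Real.logb 2 ((n + 1 : ℕ) : ℝ) with hlxdef
    have hlx0 : 0 ≤ lx := hlx n
    have e1 : (θ / 2 - ε) * lx - 1 ≤ Real.logb 2 (m n) := by
      have := logb_floor hy2
      have e2 : Real.logb 2 (y n) = (θ / 2 - ε) * lx := by
        rw [hy]
        simp only
        rw [Real.logb_rpow_eq_mul_logb_of_pos (by linarith [hx1 n])]
      rw [e2] at this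
      exact this
    have e3 : (2 - ε) * Real.logb 2 (m n) - 1 ≤ (k0 n : ℝ) := (Nat.sub_one_lt_floor _).le
    have e4 : (1 - θ / 2 + ε / 2) * lx - 1 ≤ (g n : ℝ) := (Nat.sub_one_lt_floor _).le
    have e5 : (2 - ε) * ((θ / 2 - ε) * lx - 1) ≤ (2 - ε) * Real.logb 2 (m n) :=
      mul_le_mul_of_nonneg_left e1 (by linarith)
    have e6 : 4 ≤ 2 * ε * lx := by
      rw [div_le_iff₀ (by positivity)] at hl4
      linarith
    have e7 : c * lx ≤ (1 + θ / 2 - 5 * ε) * lx :=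
      mul_le_mul_of_nonneg_right (by linarith) hlx0
    have e8 : 0 ≤ (ε / 2 * (2 - θ) + ε ^ 2 + ε / 2) * lx := by
      apply mul_nonneg _ hlx0
      nlinarith
    have e9 : c * Real.logb 2 ((n : ℝ) + 1) = c * lx := by
      rw [hlxdef]; push_cast; rfl
    rw [e9]
    nlinarith

end Y616CQ
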