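import Pool.Agent.Y616.CQ.Stm

/-!
An algorithm with `q` queries needs only `2 q` vertices.
-/

namespace Y616CQ.Rel

open Finset H761CQ Y616CQ

/-! ### counting -/

open Classical in
/-- number of the functions with a property -/
noncomputable def ct {Z : Type} [Fintype Z] (P : (Z → Bool) → Prop) : ℕ :=
  (univ.filter fun G : Z → Bool => P G).card

open Classical in
/-- proportion of the functions with a property -/
noncomputable def pr {Z : Type} [Fintype Z] (P : (Z → Bool) → Prop) : ℝ :=
  (ct P : ℝ) / Fintype.card (Z → Bool)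

open Classical in
theorem pr_comp {E Z : Type} [Fintype E] [Fintype Z] (ι : E → Z) (hι : Function.Injective ι)
    (P : (E → Bool) → Prop) : pr (fun G : Z → Bool => P (G ∘ ι)) = pr P := by
  let e : Z ≃ E ⊕ ((Set.range ι)ᶜ : Set Z) :=
    (Equiv.Set.sumCompl (Set.range ι)).symm.trans
      (Equiv.sumCongr (Equiv.ofInjective ι hι).symm (Equiv.refl _))
  let F : (Z → Bool) ≃ (E → Bool) × (((Set.range ι)ᶜ : Set Z) → Bool) :=
    (Equiv.arrowCongr e (Equiv.refl Bool)).trans (Equiv.sumArrowEquivProdArrow _ _ _)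
  have hF : ∀ G : Z → Bool, (F G).1 = G ∘ ι := by
    intro G
    funext x
    have h1 : (F G).1 x = G (e.symm (Sum.inl x)) := rfl
    rw [h1]
    rfl
  have hc : Fintype.card (Z → Bool) =
      Fintype.card (E → Bool) * Fintype.card (((Set.range ι)ᶜ : Set Z) → Bool) := by
    rw [← Fintype.card_prod]
    exact Fintype.card_congr F
  have hn : (univ.filter fun G : Z → Bool => P (G ∘ ι)).card =
      (univ.filter fun g : E → Bool => P g).card *
        Fintype.card (((Set.range ι)ᶜ : Set Z) → Bool) := by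
    have h2 : (univ.filter fun G : Z → Bool => P (G ∘ ι)).card =
        ((univ.filter fun g : E → Bool => P g) ×ˢ
          (univ : Finset (((Set.range ι)ᶜ : Set Z) → Bool))).card := by
      refine Finset.card_bij (fun G _ => F G) ?_ ?_ ?_
      · intro G hG
        rw [Finset.mem_product]
        refine ⟨?_, Finset.mem_univ _⟩
        rw [Finset.mem_filter] at hG ⊢
        refine ⟨Finset.mem_univ _, ?_⟩
        rw [hF]
        exact hG.2
      · intro G _ G' _ h
        exact F.injective h
      · intro x hx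
        refine ⟨F.symm x, ?_, F.apply_symm_apply x⟩
        rw [Finset.mem_filter]
        refine ⟨Finset.mem_univ _, ?_⟩
        rw [← hF, F.apply_symm_apply]
        exact (Finset.mem_filter.1 (Finset.mem_product.1 hx).1).2
    rw [h2, Finset.card_product, Finset.card_univ]
  unfold pr ct
  rw [hn, hc]
  have h3 : (Fintype.card (((Set.range ι)ᶜ : Set Z) → Bool) : ℝ) ≠ 0 := by
    exact_mod_cast Fintype.card_ne_zero
  push_cast
  rw [mul_div_mul_right _ _ h3]

theorem pr_list {Z Z' : Type} [Fintype Z] [Fintype Z'] (l : List (Z × Bool)) (μ : Z → Z')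
    (hμ : Set.InjOn μ {e | ∃ b, (e, b) ∈ l}) :
    pr (fun G : Z → Bool => ∀ x ∈ l, G x.1 = x.2) =
      pr (fun G : Z' → Bool => ∀ x ∈ l.map (fun x => (μ x.1, x.2)), G x.1 = x.2) := by
  classical
  let E : Type := {e : Z // ∃ b, (e, b) ∈ l}
  let P : (E → Bool) → Prop := fun g => ∀ x (hx : x ∈ l), g ⟨x.1, x.2, hx⟩ = x.2
  have h1 := pr_comp (E := E) (Z := Z) Subtype.val Subtype.val_injective P
  have h2 := pr_comp (E := E) (Z := Z') (fun e => μ e.1) (fun a b h =>
    Subtype.ext (hμ a.2 b.2 h)) P
  have e1 : (fun G : Z → Bool => ∀ x ∈ l, G x.1 = x.2) =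
      fun G : Z → Bool => P (G ∘ Subtype.val) := rfl
  have e2 : (fun G : Z' → Bool => ∀ x ∈ l.map (fun x => (μ x.1, x.2)), G x.1 = x.2) =
      fun G : Z' → Bool => P (G ∘ fun e : E => μ e.1) := by
    funext G
    apply propext
    constructor
    · intro h x hx
      exact h (μ x.1, x.2) (List.mem_map.2 ⟨x, hx, rfl⟩)
    · intro h y hy
      obtain ⟨x, hx, rfl⟩ := List.mem_map.1 hy
      exact h x hx
  rw [e1, e2, h1, h2]

/-! ### histories -/

/-- the pairs queried along a history, with the answers -/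
def al {n : ℕ} (A : Alg n) : List Bool → List (Sym2 (Fin n) × Bool)
  | [] => []
  | b :: h => (A.next h, b) :: al A h

theorem ans_length {n : ℕ} (A : Alg n) (G : Sym2 (Fin n) → Bool) (t : ℕ) :
    (ans A G t).length = t := by
  induction t with
  | zero => rfl
  | succ t ih => simp [ans, ih]

theorem ans_iff {n : ℕ} (A : Alg n) (G : Sym2 (Fin n) → Bool) (h : List Bool) :
    ans A G h.length = h ↔ ∀ x ∈ al A h, G x.1 = x.2 := by
  induction h with
  | nil => simp [ans, al]
  | cons b h ih =>
    simp only [List.length_cons, ans, al, List.cons.injEq, List.mem_cons, forall_eq_or_imp]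
    constructor
    · rintro ⟨h1, h2⟩
      rw [h2] at h1
      exact ⟨h1, ih.1 h2⟩
    · rintro ⟨h1, h2⟩
      have h3 := ih.2 h2
      rw [h3]
      exact ⟨h1, rfl⟩

theorem mem_al {n : ℕ} (A : Alg n) (G : Sym2 (Fin n) → Bool) (t : ℕ) (e : Sym2 (Fin n)) (b : Bool) :
    (e, b) ∈ al A (ans A G t) ↔ e ∈ qd A G t ∧ G e = b := by
  induction t with
  | zero => simp [ans, al, qd]
  | succ t ih =>
    simp only [ans, al, List.mem_cons, ih, Prod.mk.injEq]
    have h1 : e ∈ qd A G (t + 1) ↔ e = A.next (ans A G t) ∨ e ∈ qd A G t := by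
      unfold qd
      rw [Finset.range_add_one, Finset.image_insert, Finset.mem_insert]
    rw [h1]
    constructor
    · rintro (⟨h2, h3⟩ | ⟨h2, h3⟩)
      · exact ⟨Or.inl h2, by rw [h2, h3]⟩
      · exact ⟨Or.inr h2, h3⟩
    · rintro ⟨h2 | h2, h3⟩
      · exact Or.inl ⟨h2, by rw [← h3, h2]⟩
      · exact Or.inr ⟨h2, h3⟩

/-- a clique is known along the history -/
def KH {n : ℕ} (A : Alg n) (k : ℕ) (h : List Bool) : Prop :=
  ∃ K : Finset (Fin n), K.card = k ∧ ∀ e ∈ prs K, (e, true) ∈ al A h

theorem knows_iff {n : ℕ} (A : Alg n) (q k : ℕ) (G : Sym2 (Fin n) → Bool) :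
    Knows A q k G ↔ KH A k (ans A G q) := by
  unfold Knows KH
  refine exists_congr fun K => and_congr Iff.rfl ?_
  refine forall_congr' fun e => imp_congr Iff.rfl ?_
  exact (mem_al A G q e true).symm

/-- all lists of length `q` -/
def LL (q : ℕ) : Finset (List Bool) :=
  (univ : Finset (List.Vector Bool q)).image List.Vector.toList

theorem mem_LL {q : ℕ} {h : List Bool} : h ∈ LL q ↔ h.length = q := by
  unfold LL
  rw [Finset.mem_image]
  constructor
  · rintro ⟨x, _, rfl⟩
    exact x.toList_length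
  · intro hh
    exact ⟨⟨h, hh⟩, Finset.mem_univ _, rfl⟩

open Classical in
theorem pk_eq {n : ℕ} (A : Alg n) (q k : ℕ) :
    pk A q k = ∑ h ∈ LL q, if KH A k h then pr (fun G => ∀ x ∈ al A h, G x.1 = x.2) else 0 := by
  have h1 : (univ.filter fun G : Sym2 (Fin n) → Bool => Knows A q k G).card =
      ∑ h ∈ LL q, if KH A k h then
        ct (fun G : Sym2 (Fin n) → Bool => ∀ x ∈ al A h, G x.1 = x.2) else 0 := by
    rw [Finset.card_eq_sum_card_fiberwise (f := fun G => ans A G q) (t := LL q)
      (fun G _ => mem_LL.2 (ans_length A G q))]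
    refine Finset.sum_congr rfl fun h hh => ?_
    rw [mem_LL] at hh
    split_ifs with hk
    · unfold ct
      congr 1
      ext G
      simp only [Finset.mem_filter, Finset.mem_univ, true_and]
      rw [knows_iff, ← ans_iff, hh]
      constructor
      · rintro ⟨_, h3⟩
        exact h3
      · intro h3
        rw [h3]
        exact ⟨hk, rfl⟩
    · rw [Finset.card_eq_zero]
      ext G
      simp only [Finset.mem_filter, Finset.mem_univ, true_and, Finset.notMem_empty, iff_false]
      rw [knows_iff]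
      rintro ⟨h2, h3⟩
      rw [h3] at h2
      exact hk h2
  unfold pk
  rw [h1, Nat.cast_sum, Finset.sum_div]
  refine Finset.sum_congr rfl fun h _ => ?_
  have e : ∀ i1 i2 : Fintype (Sym2 (Fin n) → Bool),
      @Fintype.card _ i1 = @Fintype.card _ i2 := fun i1 i2 =>
    @Fintype.card_congr _ _ i1 i2 (Equiv.refl _)
  split_ifs
  · unfold pr
    exact congrArg (fun m : ℕ => ((ct fun G : Sym2 (Fin n) → Bool =>
      ∀ x ∈ al A h, G x.1 = x.2 : ℕ) : ℝ) / (m : ℝ)) (e _ _)
  · simp

/-! ### names -/

/-- the endpoints of the queried pairs, in the order of their appearance -/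
noncomputable def L {n : ℕ} (A : Alg n) : List Bool → List (Fin n)
  | [] => []
  | _ :: h => L A h ++ [(Quot.out (A.next h)).1, (Quot.out (A.next h)).2]

theorem L_length {n : ℕ} (A : Alg n) (h : List Bool) : (L A h).length = 2 * h.length := by
  induction h with
  | nil => rfl
  | cons b h ih =>
    simp only [L, List.length_append, List.length_cons, List.length_nil, ih]
    ring

/-- the name of a vertex -/
def nm {n : ℕ} (q : ℕ) (l : List (Fin n)) (x : Fin n) : Fin (2 * q + 1) :=
  ⟨min (l.idxOf x) (2 * q), by omega⟩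

theorem nm_append {n : ℕ} (q : ℕ) (l l' : List (Fin n)) {x : Fin n} (hx : x ∈ l) :
    nm q (l ++ l') x = nm q l x := by
  unfold nm
  congr 2
  exact List.idxOf_append_of_mem hx

theorem nm_inj {n : ℕ} (q : ℕ) (l : List (Fin n)) (hl : l.length ≤ 2 * q) {x y : Fin n}
    (hx : x ∈ l) (hy : y ∈ l) (h : nm q l x = nm q l y) : x = y := by
  have h1 := List.idxOf_lt_length_of_mem hx
  have h2 := List.idxOf_lt_length_of_mem hy
  have h3 : min (l.idxOf x) (2 * q) = min (l.idxOf y) (2 * q) := congrArg Fin.val h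
  rw [min_eq_left (by omega), min_eq_left (by omega)] at h3
  exact (List.idxOf_inj hx).1 h3

/-- the algorithm with new names -/
noncomputable def BB {n : ℕ} (q : ℕ) (A : Alg n) : Alg (2 * q + 1) where
  next h := (A.next h).map (nm q (L A (false :: h)))
  out _ := ∅

theorem out_mk {n : ℕ} (e : Sym2 (Fin n)) : s((Quot.out e).1, (Quot.out e).2) = e :=
  Quot.out_eq e

theorem al_ends {n : ℕ} (A : Alg n) (h : List Bool) : ∀ e b, (e, b) ∈ al A h → ∀ x ∈ e, x ∈ L A h := by
  induction h with
  | nil =>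
    intro e b he
    simp [al] at he
  | cons b h ih =>
    intro e c he x hx
    simp only [al, List.mem_cons, Prod.mk.injEq] at he
    simp only [L, List.mem_append, List.mem_cons]
    rcases he with ⟨he, _⟩ | he
    · rw [he, ← out_mk (A.next h), Sym2.mem_iff] at hx
      rcases hx with hx | hx
      · exact Or.inr (Or.inl hx)
      · exact Or.inr (Or.inr (Or.inl hx))
    · exact Or.inl (ih e c he x hx)

theorem map_congr' {n m : ℕ} {f g : Fin n → Fin m} (e : Sym2 (Fin n)) (h : ∀ x ∈ e, f x = g x) :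
    e.map f = e.map g := by
  induction e using Sym2.ind with
  | _ a b =>
    rw [Sym2.map_mk, Sym2.map_mk]
    rw [h a (by simp), h b (by simp)]

theorem map_inj' {n m : ℕ} {f : Fin n → Fin m} {S : Set (Fin n)} (hf : Set.InjOn f S)
    (e e' : Sym2 (Fin n)) (h1 : ∀ x ∈ e, x ∈ S) (h2 : ∀ x ∈ e', x ∈ S)
    (h : e.map f = e'.map f) : e = e' := by
  induction e using Sym2.ind with
  | _ a b =>
    induction e' using Sym2.ind with
    | _ c d =>
      have ha := h1 a (by simp)
      have hb := h1 b (by simp)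
      have hc := h2 c (by simp)
      have hd := h2 d (by simp)
      rw [Sym2.map_mk, Sym2.map_mk] at h
      rw [Sym2.eq_iff] at h ⊢
      rcases h with ⟨h3, h4⟩ | ⟨h3, h4⟩
      · exact Or.inl ⟨hf ha hc h3, hf hb hd h4⟩
      · exact Or.inr ⟨hf ha hd h3, hf hb hc h4⟩

theorem al_BB {n : ℕ} (q : ℕ) (A : Alg n) (h : List Bool) :
    al (BB q A) h = (al A h).map (fun x => (x.1.map (nm q (L A h)), x.2)) := by
  induction h with
  | nil => rfl
  | cons b h ih =>
    simp only [al, List.map_cons]
    congr 1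
    rw [ih]
    refine List.map_congr_left fun x hx => ?_
    congr 1
    refine map_congr' _ fun y hy => ?_
    simp only [L]
    exact (nm_append q _ _ (al_ends A h x.1 x.2 hx y hy)).symm

theorem KH_BB {n : ℕ} (q : ℕ) (A : Alg n) (k : ℕ) (h : List Bool) (hh : h.length = q)
    (hk : KH A k h) : KH (BB q A) k h := by
  obtain ⟨K, hK, hK2⟩ := hk
  have hL : (L A h).length ≤ 2 * q := by rw [L_length, hh]
  by_cases hk2 : 2 ≤ k
  · have hKL : ∀ x ∈ K, x ∈ L A h := by
      intro x hx
      have h1 : 1 < K.card := by omega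
      obtain ⟨y, hy, hyx⟩ := Finset.exists_mem_ne h1 x
      have h2 : s(x, y) ∈ prs K := by
        unfold prs
        rw [Finset.mem_filter]
        refine ⟨Finset.mk_mem_sym2_iff.2 ⟨hx, hy⟩, ?_⟩
        rw [Sym2.mk_isDiag_iff]
        exact fun h => hyx h.symm
      exact al_ends A h _ _ (hK2 _ h2) x (by simp)
    refine ⟨K.image (nm q (L A h)), ?_, ?_⟩
    · rw [Finset.card_image_of_injOn, hK]
      intro x hx y hy hxy
      exact nm_inj q _ hL (hKL x hx) (hKL y hy) hxy
    · intro e he
      rw [al_BB, List.mem_map]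
      unfold prs at he
      rw [Finset.mem_filter] at he
      obtain ⟨he1, he2⟩ := he
      induction e using Sym2.ind with
      | _ a b =>
        rw [Finset.mk_mem_sym2_iff] at he1
        obtain ⟨x, hx, rfl⟩ := Finset.mem_image.1 he1.1
        obtain ⟨y, hy, rfl⟩ := Finset.mem_image.1 he1.2
        refine ⟨(s(x, y), true), hK2 _ ?_, ?_⟩
        · unfold prs
          rw [Finset.mem_filter]
          refine ⟨Finset.mk_mem_sym2_iff.2 ⟨hx, hy⟩, ?_⟩
          rw [Sym2.mk_isDiag_iff]
          intro hxy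
          apply he2
          rw [Sym2.mk_isDiag_iff, hxy]
        · simp
  · -- at most one vertex
    have h0 : ∃ K' : Finset (Fin (2 * q + 1)), K'.card = k ∧ K'.card ≤ 1 := by
      rcases Nat.lt_or_ge 0 k with h1 | h1
      · refine ⟨{0}, ?_, ?_⟩
        · rw [Finset.card_singleton]
          omega
        · simp
      · refine ⟨∅, ?_, ?_⟩
        · rw [Finset.card_empty]
          omega
        · simp
    obtain ⟨K', hK', hK1⟩ := h0
    refine ⟨K', hK', fun e he => ?_⟩
    exfalso
    unfold prs at he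
    rw [Finset.mem_filter] at he
    obtain ⟨he1, he2⟩ := he
    induction e using Sym2.ind with
    | _ a b =>
      rw [Finset.mk_mem_sym2_iff] at he1
      apply he2
      rw [Sym2.mk_isDiag_iff]
      exact Finset.card_le_one.1 hK1 a he1.1 b he1.2

end Y616CQ.Rel

namespace Y616CQ

open Finset H761CQ Y616CQ.Rel

theorem stRel : StRel := by
  intro n q A
  classical
  refine ⟨BB q A, fun k => ?_⟩
  rw [pk_eq, pk_eq]
  refine Finset.sum_le_sum fun h hh => ?_
  rw [mem_LL] at hh
  have hL : (L A h).length ≤ 2 * q := by rw [L_length, hh]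
  have hpr : pr (fun G : Sym2 (Fin n) → Bool => ∀ x ∈ al A h, G x.1 = x.2) =
      pr (fun G : Sym2 (Fin (2 * q + 1)) → Bool => ∀ x ∈ al (BB q A) h, G x.1 = x.2) := by
    rw [al_BB]
    refine pr_list (al A h) (fun e => e.map (nm q (L A h))) ?_
    rintro e ⟨b, he⟩ e' ⟨b', he'⟩ hee
    refine map_inj' (S := {x | x ∈ L A h}) ?_ e e' (al_ends A h e b he) (al_ends A h e' b' he') hee
    intro x hx y hy hxy
    exact nm_inj q _ hL hx hy hxy
  have hnn : 0 ≤ pr (fun G : Sym2 (Fin (2 * q + 1)) → Bool => ∀ x ∈ al (BB q A) h, G x.1 = x.2) := by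
    unfold pr
    positivity
  by_cases h1 : KH A k h
  · rw [if_pos h1, if_pos (KH_BB q A k h hh h1), hpr]
  · rw [if_neg h1]
    split_ifs
    · exact hnn
    · exact le_refl _

end Y616CQ
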