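import Mathlib
import Pool.Agent.Y616.CQ.Stm
import Pool.Agent.Y616.CQ.Low

/-!
Project CL: the two bounds for the exponents at most one.
-/

namespace Y616CQ

open Finset Filter MeasureTheory H761CQ

theorem stUpS_of (hD : StDet) (hR : StRel) (hE : StEmb) : StUpS := by
  intro θ c hθ0 hθ1 hc
  obtain ⟨c', hc'def⟩ : ∃ c' : ℝ, c' = (3 / 2 + c / θ) / 2 := ⟨_, rfl⟩
  have hq1 : 3 / 2 < c / θ := by
    rw [lt_div_iff₀ hθ0]; linarith
  have hc'1 : 3 / 2 < c' := by rw [hc'def]; linarith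
  have hc'0 : 0 < c' := by linarith
  have hc'2 : c' * θ < c := by
    have : c' < c / θ := by rw [hc'def]; linarith
    rwa [lt_div_iff₀ hθ0] at this
  obtain ⟨η', hη', hη'2, hev⟩ := hD c' hc'1
  obtain ⟨η, hηdef⟩ : ∃ η : ℝ, η = (c - c' * θ) / (2 * c') := ⟨_, rfl⟩
  have hη : 0 < η := by rw [hηdef]; apply div_pos <;> linarith
  have hgap : 0 < c - c' * (θ + η) := by
    have : c' * η = (c - c' * θ) / 2 := by rw [hηdef]; field_simp
    nlinarith
  refine ⟨η, hη, ?_⟩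
  set N : ℕ → ℕ := fun n => 3 * ⌈(n : ℝ) ^ (θ + η)⌉₊ with hN
  have hyt : Tendsto (fun n : ℕ => (n : ℝ) ^ (θ + η)) atTop atTop :=
    (tendsto_rpow_atTop (by positivity)).comp tendsto_natCast_atTop_atTop
  have hNt : Tendsto N atTop atTop := by
    apply tendsto_atTop_mono (f := fun n : ℕ => ⌈(n : ℝ) ^ (θ + η)⌉₊)
    · intro n; simp only [hN]; omega
    · exact tendsto_nat_ceil_atTop.comp hyt
  have hlt : Tendsto (fun n : ℕ => Real.logb 2 (n : ℝ)) atTop atTop :=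
    (Real.tendsto_logb_atTop (by norm_num)).comp tendsto_natCast_atTop_atTop
  have hnr : Tendsto (fun n : ℕ => ((n : ℝ)) ^ (θ / 2)) atTop atTop :=
    (tendsto_rpow_atTop (by positivity)).comp tendsto_natCast_atTop_atTop
  filter_upwards [hNt.eventually hev, eventually_ge_atTop 1,
    hlt.eventually_ge_atTop (3 * c' / (c - c' * (θ + η))),
    hnr.eventually_ge_atTop 14] with n hn hn1 hl hn14 q k hq hk A
  have hx1 : (1 : ℝ) ≤ n := by exact_mod_cast hn1
  have hx0 : (0 : ℝ) < n := by linarith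
  set lx : ℝ := Real.logb 2 (n : ℝ) with hlx
  have hlx0 : 0 ≤ lx := Real.logb_nonneg (by norm_num) hx1
  have hy1 : (1 : ℝ) ≤ (n : ℝ) ^ (θ + η) := Real.one_le_rpow hx1 (by positivity)
  have hNge : (n : ℝ) ^ (θ + η) ≤ N n := by
    have := Nat.le_ceil ((n : ℝ) ^ (θ + η))
    simp only [hN]
    push_cast
    linarith
  have hNle : (N n : ℝ) ≤ 8 * (n : ℝ) ^ (θ + η) := by
    have := Nat.ceil_lt_add_one (a := (n : ℝ) ^ (θ + η)) (by positivity)
    simp only [hN]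
    push_cast
    linarith
  have hNge1 : (1 : ℝ) ≤ N n := hy1.trans hNge
  have hNpos : (0 : ℝ) < N n := by linarith
  have hqc : q ≤ ⌈(n : ℝ) ^ (θ + η)⌉₊ := by
    have := hq.trans (Nat.le_ceil ((n : ℝ) ^ (θ + η)))
    exact_mod_cast this
  have hc1 : 1 ≤ ⌈(n : ℝ) ^ (θ + η)⌉₊ := by
    rw [Nat.one_le_ceil_iff]; linarith
  have hqN : 2 * q + 1 ≤ N n := by simp only [hN]; omega
  obtain ⟨B, hB⟩ := hR n q A
  obtain ⟨B', hB'⟩ := hE.1 _ _ hqN B
  have hlogN : Real.logb 2 (N n) ≤ (θ + η) * lx + 3 := by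
    have h1 : Real.logb 2 (N n) ≤ Real.logb 2 (8 * (n : ℝ) ^ (θ + η)) :=
      Real.logb_le_logb_of_le (by norm_num) hNpos hNle
    have h2 : Real.logb 2 (8 * (n : ℝ) ^ (θ + η)) = 3 + (θ + η) * lx := by
      rw [Real.logb_mul (by norm_num) (by positivity), Real.logb_rpow_eq_mul_logb_of_pos hx0]
      have : Real.logb 2 8 = 3 := by
        rw [show (8 : ℝ) = 2 ^ (3 : ℝ) by norm_num]
        exact Real.logb_rpow (by norm_num) (by norm_num)
      rw [this]
    linarith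
  have hkk : c' * Real.logb 2 (N n) ≤ (k : ℝ) := by
    have h1 : c' * Real.logb 2 (N n) ≤ c' * ((θ + η) * lx + 3) :=
      mul_le_mul_of_nonneg_left hlogN hc'0.le
    have h2 : 3 * c' ≤ (c - c' * (θ + η)) * lx := by
      rw [div_le_iff₀ hgap] at hl
      linarith
    nlinarith
  have hqq : (q : ℝ) ≤ (N n : ℝ) ^ (1 + η') := by
    have h1 : (q : ℝ) ≤ N n := by
      have : q ≤ N n := by omega
      exact_mod_cast this
    calc (q : ℝ) ≤ N n := h1
      _ = (N n : ℝ) ^ (1 : ℝ) := (Real.rpow_one _).symm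
      _ ≤ _ := Real.rpow_le_rpow_of_exponent_le hNge1 (by linarith)
  have hfin := hn q k hqq hkk B'
  have hNθ : (n : ℝ) ^ θ ≤ N n :=
    (Real.rpow_le_rpow_of_exponent_le hx1 (by linarith)).trans hNge
  have hbound : (N n : ℝ) ^ (η' - 2) ≤ ((n : ℝ) ^ θ) ^ (η' - 2) :=
    Real.rpow_le_rpow_of_nonpos (by positivity) hNθ (by linarith)
  calc pk A q k ≤ pk B q k := hB k
    _ ≤ pk B' q k := hB' q k
    _ ≤ 14 * (N n : ℝ) ^ (η' - 2) := hfin
    _ ≤ 14 * ((n : ℝ) ^ θ) ^ (η' - 2) := mul_le_mul_of_nonneg_left hbound (by norm_num)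
    _ = 14 * (n : ℝ) ^ (θ * (η' - 2)) := by rw [← Real.rpow_mul hx0.le]
    _ ≤ 14 * (n : ℝ) ^ (-θ - θ / 2) := by
        apply mul_le_mul_of_nonneg_left _ (by norm_num)
        apply Real.rpow_le_rpow_of_exponent_le hx1
        nlinarith
    _ ≤ (n : ℝ) ^ (θ / 2) * (n : ℝ) ^ (-θ - θ / 2) :=
        mul_le_mul_of_nonneg_right hn14 (by positivity)
    _ = (n : ℝ) ^ (-θ) := by
        rw [← Real.rpow_add hx0]
        congr 1
        ring

theorem stLowS_of (hL : StLow) (hE : StEmb) : StLowS := by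
  intro θ c hθ0 hθ1 hc
  obtain ⟨c1, hc1def⟩ : ∃ c1 : ℝ, c1 = max ((c / θ + 3 / 2) / 2) 1 := ⟨_, rfl⟩
  have hcθ : c / θ < 3 / 2 := by rw [div_lt_iff₀ hθ0]; linarith
  have hc1a : c1 < 1 + 1 / 2 := by
    rw [hc1def]; exact max_lt (by linarith) (by norm_num)
  have hc1b : 1 ≤ c1 := by rw [hc1def]; exact le_max_right _ _
  have hc1c : c < c1 * θ := by
    have h1 : c / θ < c1 := by
      have : (c / θ + 3 / 2) / 2 ≤ c1 := by rw [hc1def]; exact le_max_left _ _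
      linarith
    rwa [div_lt_iff₀ hθ0] at h1
  obtain ⟨q1, A1, hq1, hT1⟩ := hL 1 c1 le_rfl (by norm_num) hc1a
  set y : ℕ → ℝ := fun n => ((n + 1 : ℕ) : ℝ) ^ θ with hy
  set j : ℕ → ℕ := fun n => ⌊y n⌋₊ - 1 with hj
  have hx1 : ∀ n : ℕ, (1 : ℝ) ≤ ((n + 1 : ℕ) : ℝ) := fun n => by
    push_cast; linarith [Nat.cast_nonneg (α := ℝ) n]
  have hy1 : ∀ n, 1 ≤ y n := fun n => Real.one_le_rpow (hx1 n) hθ0.le
  have hfl : ∀ n, 1 ≤ ⌊y n⌋₊ := fun n => by rw [Nat.one_le_floor_iff]; exact hy1 n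
  have hj1 : ∀ n, j n + 1 = ⌊y n⌋₊ := fun n => by have := hfl n; simp only [hj]; omega
  have hjn : ∀ n, j n + 1 ≤ n + 1 := by
    intro n
    rw [hj1]
    apply Nat.floor_le_of_le
    calc y n = ((n + 1 : ℕ) : ℝ) ^ θ := rfl
      _ ≤ ((n + 1 : ℕ) : ℝ) ^ (1 : ℝ) := Real.rpow_le_rpow_of_exponent_le (hx1 n) hθ1
      _ = ((n + 1 : ℕ) : ℝ) := Real.rpow_one _
  choose A hA using fun n => hE.1 (j n + 1) (n + 1) (hjn n) (A1 (j n))
  have hxt : Tendsto (fun n : ℕ => ((n + 1 : ℕ) : ℝ)) atTop atTop :=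
    tendsto_natCast_atTop_atTop.comp (tendsto_add_atTop_nat 1)
  have hyt : Tendsto y atTop atTop := (tendsto_rpow_atTop hθ0).comp hxt
  have hjt : Tendsto j atTop atTop := by
    have h1 : Tendsto (fun n => ⌊y n⌋₊) atTop atTop := tendsto_nat_floor_atTop.comp hyt
    exact (tendsto_sub_atTop_nat 1).comp h1
  have hlt : Tendsto (fun n : ℕ => Real.logb 2 ((n + 1 : ℕ) : ℝ)) atTop atTop :=
    (Real.tendsto_logb_atTop (by norm_num)).comp hxt
  refine ⟨fun n => q1 (j n), A, ?_, ?_⟩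
  · filter_upwards [hjt.eventually hq1] with n hn
    rw [Real.rpow_one] at hn
    refine hn.trans ?_
    rw [hj1]
    have : (⌊y n⌋₊ : ℝ) ≤ y n := Nat.floor_le (by linarith [hy1 n])
    have h2 : y n = ((n + 1 : ℕ) : ℝ) ^ θ := rfl
    rw [← h2]
    linarith
  · refine tendsto_of_tendsto_of_tendsto_of_le_of_le' (hT1.comp hjt) tendsto_const_nhds ?_
      (Eventually.of_forall fun n => (hE.2.2 _ _ _ _).2)
    filter_upwards [hyt.eventually_ge_atTop 2,
      hlt.eventually_ge_atTop (c1 / (c1 * θ - c))] with n hy2 hl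
    refine le_trans ?_ ((hA n (q1 (j n)) _).trans
      (hE.2.1 (n + 1) (A n) (q1 (j n)) (q1 (j n))
        ⌈c1 * Real.logb 2 ((j n + 1 : ℕ) : ℝ)⌉₊ _ le_rfl ?_))
    · exact le_refl _
    · apply Nat.ceil_mono
      rw [hj1]
      set lx : ℝ := Real.logb 2 ((n + 1 : ℕ) : ℝ) with hlxdef
      have e1 : θ * lx - 1 ≤ Real.logb 2 (⌊y n⌋₊ : ℝ) := by
        have := logb_floor hy2
        have e2 : Real.logb 2 (y n) = θ * lx := by
          rw [hy]
          simp only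
          rw [Real.logb_rpow_eq_mul_logb_of_pos (by linarith [hx1 n])]
        rw [e2] at this
        exact this
      have e3 : c1 * (θ * lx - 1) ≤ c1 * Real.logb 2 (⌊y n⌋₊ : ℝ) :=
        mul_le_mul_of_nonneg_left e1 (by linarith)
      have hgap : 0 < c1 * θ - c := by linarith
      have e4 : c1 ≤ (c1 * θ - c) * lx := by
        rw [div_le_iff₀ hgap] at hl
        linarith
      nlinarith

end Y616CQ
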