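import Mathlib
import Pool.Agent.Y616.CQ.Stm

/-!
Project CL: the upper bound for the exponents `θ ≥ 1`.
-/

namespace Y616CQ

open Finset Filter MeasureTheory H761CQ

theorem stUp_of (hD : StDet) (hI : StItU) (hE : StEmb) : StUp := by
  intro θ c hθ hc
  have hθ0 : 0 < θ := by linarith
  -- the constant for the core bound
  obtain ⟨c', hc'def⟩ : ∃ c' : ℝ, c' = (3 / 2 + (c + θ - 1) / θ) / 2 := ⟨_, rfl⟩
  have hq1 : 3 / 2 < (c + θ - 1) / θ := by
    rw [lt_div_iff₀ hθ0]; linarith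
  have hc'1 : 3 / 2 < c' := by rw [hc'def]; linarith
  have hc'2 : c' * θ < c + θ - 1 := by
    have : c' < (c + θ - 1) / θ := by rw [hc'def]; linarith
    rwa [lt_div_iff₀ hθ0] at this
  obtain ⟨η', hη', hη'2, hev⟩ := hD c' hc'1
  refine ⟨η' / 2, by positivity, ?_⟩
  set g : ℕ → ℕ := fun n => ⌈(θ - 1) * Real.logb 2 n⌉₊ with hg
  set N : ℕ → ℕ := fun n => 2 ^ g n * (n + 1) - 1 with hN
  have hNn : ∀ n, n ≤ N n := by
    intro n
    have h1 : 1 ≤ 2 ^ g n := Nat.one_le_two_pow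
    have h2 : n + 1 ≤ 2 ^ g n * (n + 1) := Nat.le_mul_of_pos_left _ (by positivity)
    simp only [hN]
    omega
  have hNt : Tendsto N atTop atTop := tendsto_atTop_mono hNn tendsto_id
  have hlt : Tendsto (fun n : ℕ => Real.logb 2 (n : ℝ)) atTop atTop :=
    (Real.tendsto_logb_atTop (by norm_num)).comp tendsto_natCast_atTop_atTop
  have hNr : Tendsto (fun n : ℕ => ((N n : ℝ)) ^ (η' / 2)) atTop atTop :=
    (tendsto_rpow_atTop (by positivity)).comp (tendsto_natCast_atTop_atTop.comp hNt)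
  have hnr : Tendsto (fun n : ℕ => ((n : ℝ)) ^ (θ / 2)) atTop atTop :=
    (tendsto_rpow_atTop (by positivity)).comp tendsto_natCast_atTop_atTop
  have hgap : 0 < c + θ - 1 - c' * θ := by linarith
  filter_upwards [hNt.eventually hev, eventually_ge_atTop 1,
    hlt.eventually_ge_atTop (2 * c' / (c + θ - 1 - c' * θ)), hNr.eventually_ge_atTop 5,
    hnr.eventually_ge_atTop 28] with n hn hn1 hl hN5 hn28 q k hq hk A
  have hx1 : (1 : ℝ) ≤ n := by exact_mod_cast hn1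
  have hx0 : (0 : ℝ) < n := by linarith
  set lx : ℝ := Real.logb 2 (n : ℝ) with hlx
  have hlx0 : 0 ≤ lx := Real.logb_nonneg (by norm_num) hx1
  obtain ⟨B, hB⟩ := hI (g n) n A
  have hg1 : (θ - 1) * lx ≤ (g n : ℝ) := Nat.le_ceil _
  have hg2 : (g n : ℝ) < (θ - 1) * lx + 1 := Nat.ceil_lt_add_one (mul_nonneg (by linarith) hlx0)
  have hpow : ∀ a : ℝ, (2 : ℝ) ^ (a * lx) = (n : ℝ) ^ a := by
    intro a
    rw [hlx, mul_comm, Real.rpow_mul (by norm_num), Real.rpow_logb (by norm_num) (by norm_num) hx0]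
  have h2g1 : (n : ℝ) ^ (θ - 1) ≤ 2 ^ g n := by
    rw [← hpow, ← Real.rpow_natCast]
    exact Real.rpow_le_rpow_of_exponent_le (by norm_num) hg1
  have h2g2 : (2 : ℝ) ^ g n ≤ 2 * (n : ℝ) ^ (θ - 1) := by
    rw [← hpow, ← Real.rpow_natCast]
    calc (2 : ℝ) ^ (g n : ℝ) ≤ (2 : ℝ) ^ ((θ - 1) * lx + 1) :=
          Real.rpow_le_rpow_of_exponent_le (by norm_num) hg2.le
      _ = 2 * (2 : ℝ) ^ ((θ - 1) * lx) := by
          rw [Real.rpow_add (by norm_num), Real.rpow_one]; ring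
  have hNe : (N n : ℝ) = 2 ^ g n * (n + 1) - 1 := by
    have h1 : 1 ≤ 2 ^ g n * (n + 1) := Nat.mul_pos (by positivity) (by omega)
    simp only [hN]
    rw [Nat.cast_sub h1]
    push_cast
    ring
  have hsplit : (n : ℝ) ^ θ = (n : ℝ) ^ (θ - 1) * n := by
    rw [Real.rpow_sub_one hx0.ne']
    field_simp
  have hN1 : (n : ℝ) ^ θ ≤ N n := by
    rw [hNe, hsplit]
    have h1 : (1 : ℝ) ≤ 2 ^ g n := one_le_pow₀ (by norm_num)
    nlinarith
  have hN2 : (N n : ℝ) ≤ 4 * (n : ℝ) ^ θ := by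
    rw [hNe, hsplit]
    have h1 : (n : ℝ) + 1 ≤ 2 * n := by linarith
    have h2 : (2 : ℝ) ^ g n * (n + 1) ≤ (2 * (n : ℝ) ^ (θ - 1)) * (2 * n) :=
      mul_le_mul h2g2 h1 (by positivity) (by positivity)
    linarith
  have hNpos : (0 : ℝ) < N n := by
    have : (1 : ℝ) ≤ N n := by exact_mod_cast hn1.trans (hNn n)
    linarith
  have hNge1 : (1 : ℝ) ≤ N n := by exact_mod_cast hn1.trans (hNn n)
  -- the logarithm
  have hlogN : Real.logb 2 (N n) ≤ θ * lx + 2 := by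
    have h1 : Real.logb 2 (N n) ≤ Real.logb 2 (4 * (n : ℝ) ^ θ) :=
      Real.logb_le_logb_of_le (by norm_num) hNpos hN2
    have h2 : Real.logb 2 (4 * (n : ℝ) ^ θ) = 2 + θ * lx := by
      rw [Real.logb_mul (by norm_num) (by positivity), Real.logb_rpow_eq_mul_logb_of_pos hx0]
      have : Real.logb 2 4 = 2 := by
        rw [show (4 : ℝ) = 2 ^ (2 : ℝ) by norm_num]
        exact Real.logb_rpow (by norm_num) (by norm_num)
      rw [this]
    linarith
  have hkk : c' * Real.logb 2 (N n) ≤ ((k + g n : ℕ) : ℝ) := by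
    push_cast
    have h1 : c' * Real.logb 2 (N n) ≤ c' * (θ * lx + 2) :=
      mul_le_mul_of_nonneg_left hlogN (by linarith)
    have h2 : 2 * c' ≤ (c + θ - 1 - c' * θ) * lx := by
      rw [div_le_iff₀ hgap] at hl
      linarith
    nlinarith
  have hqq : ((q + 2 ^ (g n + 1) * (n + 1) : ℕ) : ℝ) ≤ (N n : ℝ) ^ (1 + η') := by
    push_cast
    have h1 : (q : ℝ) ≤ (N n : ℝ) ^ (1 + η' / 2) := by
      refine hq.trans ?_
      calc (n : ℝ) ^ (θ + η' / 2) ≤ (n : ℝ) ^ (θ * (1 + η' / 2)) := by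
            apply Real.rpow_le_rpow_of_exponent_le hx1
            nlinarith
        _ = ((n : ℝ) ^ θ) ^ (1 + η' / 2) := by rw [Real.rpow_mul hx0.le]
        _ ≤ (N n : ℝ) ^ (1 + η' / 2) := Real.rpow_le_rpow (by positivity) hN1 (by positivity)
    have h2 : (2 : ℝ) ^ (g n + 1) * (n + 1) = 2 * (N n + 1) := by
      rw [hNe, pow_succ]; ring
    rw [h2]
    have h3 : (N n : ℝ) ≤ (N n : ℝ) ^ (1 + η' / 2) := by
      calc (N n : ℝ) = (N n : ℝ) ^ (1 : ℝ) := (Real.rpow_one _).symm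
        _ ≤ _ := Real.rpow_le_rpow_of_exponent_le hNge1 (by linarith)
    have h4 : (N n : ℝ) ^ (1 + η') = (N n : ℝ) ^ (1 + η' / 2) * (N n : ℝ) ^ (η' / 2) := by
      rw [← Real.rpow_add hNpos]; congr 1; ring
    rw [h4]
    have h5 : (0 : ℝ) < (N n : ℝ) ^ (1 + η' / 2) := by positivity
    nlinarith
  have hfin := hn (q + 2 ^ (g n + 1) * (n + 1)) (k + g n) hqq hkk B
  have hbound : (N n : ℝ) ^ (η' - 2) ≤ ((n : ℝ) ^ θ) ^ (η' - 2) :=
    Real.rpow_le_rpow_of_nonpos (by positivity) hN1 (by linarith)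
  calc pk A q k ≤ 2 ^ g n * pk B (q + 2 ^ (g n + 1) * (n + 1)) (k + g n) := hB q k
    _ ≤ (2 * (n : ℝ) ^ (θ - 1)) * (14 * ((n : ℝ) ^ θ) ^ (η' - 2)) := by
        apply mul_le_mul h2g2 (hfin.trans (mul_le_mul_of_nonneg_left hbound (by norm_num)))
          (hE.2.2 _ _ _ _).1 (by positivity)
    _ = 28 * (n : ℝ) ^ ((θ - 1) + θ * (η' - 2)) := by
        rw [← Real.rpow_mul hx0.le, Real.rpow_add hx0]; ring
    _ ≤ 28 * (n : ℝ) ^ (-1 - θ / 2) := by
        apply mul_le_mul_of_nonneg_left _ (by norm_num)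
        apply Real.rpow_le_rpow_of_exponent_le hx1
        nlinarith
    _ ≤ (n : ℝ) ^ (θ / 2) * (n : ℝ) ^ (-1 - θ / 2) :=
        mul_le_mul_of_nonneg_right hn28 (by positivity)
    _ = 1 / (n : ℝ) := by
        rw [← Real.rpow_add hx0]
        have : θ / 2 + (-1 - θ / 2) = -1 := by ring
        rw [this, Real.rpow_neg_one, one_div]

end Y616CQ
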