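import Mathlib
import Pool.Agent.Y616.CQ.Fin
import Pool.Agent.Y616.CQ.It
import Pool.Agent.Y616.CQ.Emb
import Pool.Agent.Y616.CQ.Bin
import Pool.Agent.Y616.CQ.Sem
import Pool.Agent.Y616.CQ.Cnt
import Pool.Agent.Y616.CQ.Det
import Pool.Agent.Y616.CQ.Up
import Pool.Agent.Y616.CQ.Low
import Pool.Agent.Y616.CQ.All
import Pool.Agent.Y616.CQ.Sml
import Pool.Agent.Y616.CQ.Clq
import Pool.Agent.Y616.CQ.Rel

/-!
Project CL: the final statement.
-/

namespace Y616CQ

theorem stStep : StStep := stStep_of stSem stCnt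

theorem stUp : StUp := stUp_of stDet (stItU_of stStep stBin stEmb) stEmb

theorem stLow : StLow := stLow_of stClq (stItL_of stStep stBin stEmb) stEmb stAll

theorem main : StMain :=
  main_of stUp (stUpS_of stDet stRel stEmb) stLow (stLowS_of stLow stEmb) stOut

end Y616CQ
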